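import Pool.Agent.XDS.Clean
import Pool.Agent.QPIT.CircW

/-!
# One sided tests for `k`-SAT: circuits with arbitrary gates of fan-in `w`
-/

set_option autoImplicit false

namespace Pool.XDS

open Finset MvPolynomial Pool.SatDet Pool.Agent.Helper59.CDT

/-- the number of clauses -/
theorem card_clause_le (n k : ℕ) : Fintype.card (Clause n k) ≤ (2 * n) ^ k := by
  classical
  have h1 : Fintype.card (Clause n k) ≤
      (powersetCard k (univ : Finset (Fin n × Bool))).card := by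
    rw [← card_univ]
    refine card_le_card_of_injOn (fun C => C.1) (fun C _ => ?_) fun C _ C' _ h => Subtype.ext h
    rw [mem_coe, mem_powersetCard]
    exact ⟨subset_univ _, C.2.1⟩
  refine h1.trans ?_
  rw [card_powersetCard, card_univ, Fintype.card_prod, Fintype.card_fin, Fintype.card_bool,
    mul_comm]
  exact Nat.choose_le_pow _ _

/-- the numbers -/
theorem circ_num_sat {C : ℝ} (hC : 1 ≤ C) (E k n s w N : ℕ) (δ : ℝ) (hk : 1 ≤ k) (hn : 1 ≤ n)
    (hs : 1 ≤ s) (hw : 1 ≤ w) (hN : N ≤ (2 * n) ^ k) (hδ : 0 < δ) (hδ1 : δ ≤ 1)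
    (h : (n : ℝ) ≤ C * Real.log (2 * n * (s + 1 : ℕ) / δ) *
      (C * (Real.log (s + N + 1 : ℕ) + (w + w) * Real.log (2 * n))) ^ E) :
    δ * Real.exp (1 / ((k + 2) * C) * (n : ℝ) ^ (1 / ((E : ℝ) + 1))) ≤
      (2 * n : ℝ) ^ w * (s + n) := by
  have hC0 : 0 < C := by linarith
  have hn1 : (1 : ℝ) ≤ n := by exact_mod_cast hn
  have hs1 : (1 : ℝ) ≤ s := by exact_mod_cast hs
  have hw1 : (1 : ℝ) ≤ w := by exact_mod_cast hw
  have hk1 : (1 : ℝ) ≤ k := by exact_mod_cast hk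
  have hE1 : (0 : ℝ) < (E : ℝ) + 1 := by positivity
  set p : ℝ := 1 / ((E : ℝ) + 1) with hp
  have hp0 : 0 < p := by positivity
  have hsn : (0 : ℝ) < (s : ℝ) + n := by positivity
  set L := Real.log (2 * (n : ℝ)) with hL
  have hL0 : 0 ≤ L := Real.log_nonneg (by linarith)
  set M := Real.log ((s : ℝ) + n) with hM
  have hM0 : 0 ≤ M := Real.log_nonneg (by linarith)
  set D := Real.log (1 / δ) with hD
  have hD0 : 0 ≤ D := Real.log_nonneg (by rw [le_div_iff₀ hδ]; linarith)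
  set A := w * L + M + D with hA
  have hwL : L ≤ w * L := le_mul_of_one_le_left hL0 hw1
  have hA0 : 0 ≤ A := by positivity
  have e1 : Real.log (2 * n * (s + 1 : ℕ) / δ) ≤ A := by
    have e2 : 2 * (n : ℝ) * (s + 1 : ℕ) / δ ≤ (2 * n) * (s + n) * (1 / δ) := by
      rw [mul_one_div]
      apply div_le_div_of_nonneg_right _ hδ.le
      apply mul_le_mul_of_nonneg_left _ (by positivity)
      push_cast
      linarith
    refine (Real.log_le_log (by positivity) e2).trans ?_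
    rw [Real.log_mul (by positivity) (by positivity), Real.log_mul (by positivity) (by positivity)]
    linarith
  have e3 : Real.log (s + N + 1 : ℕ) ≤ k * L + M := by
    have e4 : ((s + N + 1 : ℕ) : ℝ) ≤ (2 * n) ^ k * (s + n) := by
      have e5 : (N : ℝ) ≤ (2 * n) ^ k := by exact_mod_cast hN
      have e6 : (2 : ℝ) ≤ (2 * n) ^ k := by
        calc (2 : ℝ) ≤ 2 * n := by linarith
          _ = (2 * n) ^ 1 := (pow_one _).symm
          _ ≤ (2 * n) ^ k := pow_le_pow_right₀ (by linarith) hk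
      push_cast
      nlinarith [mul_le_mul_of_nonneg_right e6 (show (0 : ℝ) ≤ s by positivity),
        mul_le_mul_of_nonneg_left hn1 (show (0 : ℝ) ≤ (2 * n) ^ k by positivity)]
    refine (Real.log_le_log (by positivity) e4).trans ?_
    rw [Real.log_mul (by positivity) hsn.ne', Real.log_pow]
  have hkA : 1 * (k * L + M) ≤ k * A := by
    rw [one_mul, hA]
    nlinarith
  have e7 : Real.log (s + N + 1 : ℕ) + (w + w) * L ≤ (k + 2) * A := by
    have : (w : ℝ) * L ≤ A := by rw [hA]; linarith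
    nlinarith
  have h0 : 0 ≤ Real.log (s + N + 1 : ℕ) + (w + w) * L := by
    have : 0 ≤ Real.log (s + N + 1 : ℕ) := Real.log_natCast_nonneg _
    positivity
  have h1 : (n : ℝ) ≤ ((k + 2) * C * A) ^ (E + 1) := by
    refine h.trans ?_
    have e8 : C * (Real.log (s + N + 1 : ℕ) + (w + w) * L) ≤ (k + 2) * C * A := by
      calc C * (Real.log (s + N + 1 : ℕ) + (w + w) * L) ≤ C * ((k + 2) * A) :=
            mul_le_mul_of_nonneg_left e7 hC0.le
        _ = (k + 2) * C * A := by ring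
    have e9 : C * Real.log (2 * n * (s + 1 : ℕ) / δ) ≤ (k + 2) * C * A := by
      have e10 : C * Real.log (2 * n * (s + 1 : ℕ) / δ) ≤ C * A :=
        mul_le_mul_of_nonneg_left e1 hC0.le
      have e11 : C * A ≤ (k + 2) * (C * A) :=
        le_mul_of_one_le_left (by positivity) (by linarith)
      linarith
    calc C * Real.log (2 * n * (s + 1 : ℕ) / δ) *
          (C * (Real.log (s + N + 1 : ℕ) + (w + w) * L)) ^ E
        ≤ (k + 2) * C * A * ((k + 2) * C * A) ^ E :=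
          mul_le_mul e9 (pow_le_pow_left₀ (by positivity) e8 E) (by positivity) (by positivity)
      _ = ((k + 2) * C * A) ^ (E + 1) := by rw [pow_succ]; ring
  have h2 : (n : ℝ) ^ p ≤ (k + 2) * C * A := by
    calc (n : ℝ) ^ p ≤ (((k + 2) * C * A) ^ (E + 1)) ^ p :=
          Real.rpow_le_rpow (by positivity) h1 hp0.le
      _ = (k + 2) * C * A := by
          rw [← Real.rpow_natCast, ← Real.rpow_mul (by positivity), hp]
          push_cast
          rw [mul_one_div_cancel hE1.ne', Real.rpow_one]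
  have h3 : 1 / ((k + 2) * C) * (n : ℝ) ^ p ≤ A := by
    rw [div_mul_eq_mul_div, one_mul, div_le_iff₀ (by positivity)]
    linarith
  have h4 : Real.exp A = (2 * n : ℝ) ^ w * (s + n) * (1 / δ) := by
    rw [hA, Real.exp_add, Real.exp_add, hM, hD, Real.exp_log hsn, Real.exp_log (by positivity), hL,
      Real.exp_nat_mul, Real.exp_log (by positivity)]
  have h5 := Real.exp_le_exp.2 h3
  rw [h4] at h5
  calc δ * Real.exp (1 / ((k + 2) * C) * (n : ℝ) ^ p)
      ≤ δ * ((2 * n : ℝ) ^ w * (s + n) * (1 / δ)) := mul_le_mul_of_nonneg_left h5 hδ.le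
    _ = (2 * n : ℝ) ^ w * (s + n) := by
        field_simp

open Classical in
/-- **circuits of constant depth with arbitrary gates of fan-in `w`** -/
theorem xds_circ (d : ℕ) (hd : 2 ≤ d) : ∃ c : ℝ, 0 < c ∧
    ∀ (F : Type) [Field F] (Ω : Type) [Fintype Ω] (l n s w : ℕ) (δ : ℝ) (pr : Ω → ℝ)
      (f : Ω → MvPolynomial (Clause n (d + 1)) F),
      1 ≤ n → 1 ≤ s → 1 ≤ w → 0 < δ → δ ≤ 1 → (∀ ω, 0 ≤ pr ω) → ∑ ω, pr ω = 1 →
      (∀ ω, ∃ P : Fin s → MvPolynomial (Clause n (d + 1)) F,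
        Pool.QPIT.IsCircuitW (l + 1) w P ∧ ∃ g, P g = f ω) →
      (∀ ω, (∀ m ∈ (f ω).support, ∀ c, m c ≤ 1) ∨ (f ω).totalDegree ≤ n.choose (d + 1)) →
      (∀ φ : Finset (Clause n (d + 1)), (¬ ∃ a : Fin n → Bool, ∀ c ∈ φ, Sats a c) →
        ∀ ω, onF φ (f ω) = 0) →
      (∀ φ : Finset (Clause n (d + 1)), (∃! a : Fin n → Bool, ∀ c ∈ φ, Sats a c) →
        δ ≤ ∑ ω, if onF φ (f ω) ≠ 0 then pr ω else 0) →
      δ * Real.exp (c * (n : ℝ) ^ (1 / (3 * (Nat.fib (2 * (l + 1) + 2) : ℝ) - 4))) ≤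
        (2 * n : ℝ) ^ w * (s + n) := by
  obtain ⟨C, hC, H⟩ := xds_clean d hd
  refine ⟨1 / (((d + 1 : ℕ) + 2) * C), by positivity, ?_⟩
  intro F _ Ω _ l n s w δ pr f hn hs hw hδ hδ1 hpr hpr1 hf hml hno hyes
  have hN := card_clause_le n (d + 1)
  have h1 := H F Ω l n (s + Fintype.card (Clause n (d + 1)) + 1) w w (s + 1) δ pr f hn (by omega)
    hw hw (by omega) hδ hδ1 hpr hpr1 (fun ω => ?_) hml hno hyes
  · have h2 := circ_num_sat hC (3 * (Nat.fib (2 * l + 4) - 2) + 1) (d + 1) n s w _ δ (by omega) hn hs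
      hw hN hδ hδ1 h1
    have h3 : 3 ≤ Nat.fib (2 * l + 4) := by
      have : Nat.fib 4 ≤ Nat.fib (2 * l + 4) := Nat.fib_mono (by omega)
      exact this
    have e1 : ((3 * (Nat.fib (2 * l + 4) - 2) + 1 : ℕ) : ℝ) + 1 =
        3 * (Nat.fib (2 * (l + 1) + 2) : ℝ) - 4 := by
      rw [show 2 * (l + 1) + 2 = 2 * l + 4 by ring]
      push_cast [Nat.cast_sub (show 2 ≤ Nat.fib (2 * l + 4) by omega)]
      ring
    rw [e1] at h2
    exact h2
  · obtain ⟨P, hP, g, hg⟩ := hf ω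
    obtain ⟨h, hh, hhg⟩ := Pool.QPIT.circuit_sumW hw le_rfl hP g
    exact ⟨h, hh, by rw [hhg, hg]⟩

end Pool.XDS
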