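import Pool.Agent.XDS.Gad
import Pool.Agent.XD.Aff
import Pool.Agent.CDep.Lift
import Pool.Agent.Helper59.CDT.Coef

/-!
# From tests to polynomials in the letters

The variable of the clause of a letter `l` becomes `θ X l`, the variables of the free clauses
become constants, all other variables become `0`. The coefficient field is the field of rational
functions in the variables of the test.
-/

set_option autoImplicit false

namespace Pool.XDS

open Finset MvPolynomial Pool.SatDet Pool.XDA Pool.XD Pool.Agent.Helper41.CD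
  Pool.Agent.Helper59.CDT

/-- a product of monomials -/
theorem prod_monomial {ι L K : Type} [CommSemiring K] (s : Finset ι) (e : ι → L →₀ ℕ) (a : ι → K) :
    ∏ i ∈ s, (monomial (e i) (a i) : MvPolynomial L K) = monomial (∑ i ∈ s, e i) (∏ i ∈ s, a i) := by
  classical
  induction s using Finset.induction_on with
  | empty => simp
  | insert i s hi ih => rw [prod_insert hi, sum_insert hi, prod_insert hi, ih, monomial_mul]

section test

variable {n d : ℕ} {W L : Type} [Fintype L] {S : W → Finset L} {F : Type} [Field F]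

/-- the coefficient field -/
abbrev KF (n d : ℕ) (F : Type) [Field F] : Type :=
  FractionRing (MvPolynomial (Clause n (d + 1)) F)

/-- the variable is not set to `0` -/
def adm (G : Gad n d S) (C : Clause n (d + 1)) : Prop :=
  C ∈ G.Z ∨ ∃ l, (∃ t, l ∈ S t) ∧ C = G.lt l

open Classical in
/-- the letter of a clause -/
noncomputable def ex (G : Gad n d S) (C : Clause n (d + 1)) : L →₀ ℕ :=
  if h : ∃ l, C = G.lt l then Finsupp.single h.choose 1 else 0

open Classical in
/-- the coefficient of a clause -/
noncomputable def co (F : Type) [Field F] (G : Gad n d S) (C : Clause n (d + 1)) : KF n d F :=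
  if adm G C then algebraMap _ _ (X C : MvPolynomial (Clause n (d + 1)) F) else 0

/-- the letters of a monomial -/
noncomputable def lx (G : Gad n d S) (μ : Clause n (d + 1) →₀ ℕ) : L →₀ ℕ :=
  Finsupp.equivFunOnFinite.symm fun l => μ (G.lt l)

theorem lx_apply (G : Gad n d S) (μ : Clause n (d + 1) →₀ ℕ) (l : L) : lx G μ l = μ (G.lt l) :=
  rfl

theorem ex_apply (G : Gad n d S) (C : Clause n (d + 1)) (l : L) :
    ex G C l = if C = G.lt l then 1 else 0 := by
  classical
  unfold ex
  split_ifs with h1 h2 h2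
  · have h3 : h1.choose = l := G.inj (h1.choose_spec.symm.trans h2)
    rw [h3, Finsupp.single_eq_same]
  · have h3 : l ≠ h1.choose := fun h => h2 (by rw [h]; exact h1.choose_spec)
    exact Finsupp.single_eq_of_ne h3
  · exact absurd ⟨l, h2⟩ h1
  · rfl

theorem sum_ex (G : Gad n d S) (μ : Clause n (d + 1) →₀ ℕ) :
    ∑ C ∈ μ.support, μ C • ex G C = lx G μ := by
  classical
  ext l
  rw [Finsupp.finsetSum_apply, lx_apply]
  simp only [Finsupp.smul_apply, ex_apply, smul_eq_mul, mul_ite, mul_one, mul_zero]
  rw [Finset.sum_ite_eq']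
  split_ifs with h
  · rfl
  · exact (Finsupp.notMem_support_iff.1 h).symm

/-- the substitution -/
noncomputable def sb (F : Type) [Field F] (G : Gad n d S) (C : Clause n (d + 1)) :
    MvPolynomial L (KF n d F) := monomial (ex G C) (co F G C)

theorem sb_degree (G : Gad n d S) (C : Clause n (d + 1)) : (sb F G C).totalDegree ≤ 1 := by
  classical
  refine (totalDegree_monomial_le _ _).trans ?_
  unfold ex
  split_ifs with h
  · simp [Finsupp.sum_single_index]
  · simp

/-- the polynomial in the letters -/
noncomputable def tst (G : Gad n d S) (f : MvPolynomial (Clause n (d + 1)) F) :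
    MvPolynomial L (KF n d F) :=
  aeval (sb F G) (map (algebraMap F (KF n d F)) f)

theorem tst_cls (G : Gad n d S) {w0 w s k : ℕ} {f : MvPolynomial (Clause n (d + 1)) F}
    (hf : f ∈ Cls w0 w s k) : tst G f ∈ Cls w0 w s k :=
  cls_aeval _ (sb_degree G) (Pool.CDep.cls_map _ k hf)

theorem tst_sum_prod (G : Gad n d S) {T s : ℕ}
    (f : Fin T → Fin s → MvPolynomial (Clause n (d + 1)) F) :
    tst G (∑ i, ∏ j, f i j) = ∑ i, ∏ j, tst G (f i j) := by
  simp only [tst, map_sum, map_prod]

omit [Fintype L] in
theorem prod_co (G : Gad n d S) (μ : Clause n (d + 1) →₀ ℕ) :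
    open Classical in ∏ C ∈ μ.support, co F G C ^ μ C =
      if ∀ C ∈ μ.support, adm G C then
        algebraMap _ _ (monomial μ (1 : F)) else 0 := by
  classical
  split_ifs with h
  · rw [monomial_eq, C_1, one_mul, Finsupp.prod, map_prod]
    refine prod_congr rfl fun C hC => ?_
    rw [co, if_pos (h C hC), map_pow]
  · push Not at h
    obtain ⟨C, hC, h1⟩ := h
    refine prod_eq_zero hC ?_
    rw [co, if_neg h1, zero_pow (Finsupp.mem_support_iff.1 hC)]

theorem tst_eq (G : Gad n d S) (f : MvPolynomial (Clause n (d + 1)) F) :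
    open Classical in tst G f = ∑ μ ∈ f.support, monomial (lx G μ)
      (algebraMap F (KF n d F) (coeff μ f) * if ∀ C ∈ μ.support, adm G C then
        algebraMap _ _ (monomial μ (1 : F)) else 0) := by
  classical
  unfold tst
  conv_lhs => rw [← support_sum_monomial_coeff f]
  rw [map_sum, map_sum]
  refine sum_congr rfl fun μ _ => ?_
  rw [map_monomial, aeval_monomial, Finsupp.prod]
  have h1 : ∏ C ∈ μ.support, sb F G C ^ μ C =
      monomial (lx G μ) (∏ C ∈ μ.support, co F G C ^ μ C) := by
    rw [← sum_ex, ← prod_monomial]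
    refine prod_congr rfl fun C _ => ?_
    rw [sb, monomial_pow]
  rw [h1, prod_co, algebraMap_eq, C_mul_monomial]

theorem coeff_tst (G : Gad n d S) (f : MvPolynomial (Clause n (d + 1)) F) (m : L →₀ ℕ) :
    open Classical in coeff m (tst G f) = algebraMap _ (KF n d F)
      (∑ μ ∈ f.support with (∀ C ∈ μ.support, adm G C) ∧ lx G μ = m, monomial μ (coeff μ f)) := by
  classical
  rw [tst_eq, coeff_sum, map_sum, sum_filter]
  refine sum_congr rfl fun μ _ => ?_
  rw [coeff_monomial]
  by_cases h1 : lx G μ = m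
  · rw [if_pos h1]
    by_cases h2 : ∀ C ∈ μ.support, adm G C
    · rw [if_pos h2, if_pos ⟨h2, h1⟩, IsScalarTower.algebraMap_apply F
        (MvPolynomial (Clause n (d + 1)) F) (KF n d F), ← map_mul, algebraMap_eq,
        C_mul_monomial, mul_one]
    · rw [if_neg h2, if_neg (fun h => h2 h.1), mul_zero]
  · rw [if_neg h1, if_neg (fun h => h1 h.2)]

/-- the monomials of the polynomial in the letters -/
theorem mem_support_tst (G : Gad n d S) (f : MvPolynomial (Clause n (d + 1)) F) (m : L →₀ ℕ) :
    m ∈ (tst G f).support ↔ ∃ μ ∈ f.support, (∀ C ∈ μ.support, adm G C) ∧ lx G μ = m := by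
  classical
  rw [mem_support_iff, coeff_tst]
  constructor
  · intro h
    by_contra hcon
    push Not at hcon
    apply h
    rw [Finset.filter_eq_empty_iff.2 (fun μ hμ h1 => hcon μ hμ h1.1 h1.2), sum_empty, map_zero]
  · rintro ⟨μ, hμ, h1, h2⟩ h
    have h3 := IsFractionRing.injective (MvPolynomial (Clause n (d + 1)) F) (KF n d F)
      (h.trans (map_zero _).symm)
    have h4 := congrArg (coeff μ) h3
    rw [coeff_sum, coeff_zero, sum_eq_single μ] at h4
    · rw [coeff_monomial, if_pos rfl] at h4
      exact (mem_support_iff.1 hμ) h4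
    · intro μ' _ hne
      rw [coeff_monomial, if_neg hne]
    · intro h5
      exact absurd (mem_filter.2 ⟨hμ, h1, h2⟩) h5

/-- if `f` vanishes on every unsatisfiable formula, its monomials contain all clauses violated by
some assignment -/
theorem satP_supp {f : MvPolynomial (Clause n (d + 1)) F}
    (hf : ∀ U : Finset (Clause n (d + 1)), ¬ SatP n (d + 1) U → rst U f = 0) :
    ∀ μ ∈ f.support, SatP n (d + 1) μ.support := by
  intro m hm
  by_contra hcon
  have h1 := hf m.support hcon
  rw [rst_eq] at h1
  have h2 := congrArg (coeff m) h1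
  rw [coeff_sum, coeff_zero] at h2
  rw [Finset.sum_eq_single m] at h2
  · rw [coeff_monomial, if_pos rfl] at h2
    exact (mem_support_iff.1 hm) h2
  · intro m' _ hne
    rw [coeff_monomial, if_neg hne]
  · intro h3
    exact absurd (mem_filter.2 ⟨hm, Finset.Subset.refl _⟩) h3

/-- every monomial contains a word -/
theorem word_le (G : Gad n d S) {f : MvPolynomial (Clause n (d + 1)) F}
    (hf : ∀ U : Finset (Clause n (d + 1)), ¬ SatP n (d + 1) U → rst U f = 0) {m : L →₀ ℕ}
    (hm : m ∈ (tst G f).support) : ∃ t, ∀ l ∈ S t, 1 ≤ m l := by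
  obtain ⟨μ, hμ, h1, rfl⟩ := (mem_support_tst G f m).1 hm
  obtain ⟨t, ht⟩ := G.main μ.support (satP_supp hf μ hμ) h1
  refine ⟨t, fun l hl => ?_⟩
  rw [lx_apply]
  exact Nat.one_le_iff_ne_zero.2 (Finsupp.mem_support_iff.1 (ht l hl))

open Classical in
/-- the complement of the formula of a word -/
noncomputable def Uw (G : Gad n d S) (t : W) : Finset (Clause n (d + 1)) :=
  univ.filter fun C => C ∈ G.Z ∨ ∃ l ∈ S t, C = G.lt l

open Classical in
/-- the coefficient of the word of an accepted formula is not zero -/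
theorem coeff_word (G : Gad n d S) (hS : ∀ t t', S t' ⊆ S t → t' = t)
    {f : MvPolynomial (Clause n (d + 1)) F}
    (hf : ∀ U : Finset (Clause n (d + 1)), ¬ SatP n (d + 1) U → rst U f = 0)
    (hml : ∀ μ ∈ f.support, ∀ C, μ C ≤ 1) {t : W} (ht : rst (Uw G t) f ≠ 0) {m : L →₀ ℕ}
    (hm : ∀ l, m l = if l ∈ S t then 1 else 0) : m ∈ (tst G f).support := by
  rw [mem_support_tst]
  have h1 : ∃ μ ∈ f.support, μ.support ⊆ Uw G t := by
    by_contra hcon
    push Not at hcon
    apply ht
    rw [rst_eq]
    exact sum_eq_zero fun μ hμ => absurd (mem_filter.1 hμ).2 (hcon μ (mem_filter.1 hμ).1)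
  obtain ⟨μ, hμ, h2⟩ := h1
  have hadm : ∀ C ∈ μ.support, adm G C := by
    intro C hC
    rcases (mem_filter.1 (h2 hC)).2 with h3 | ⟨l, hl, h3⟩
    · exact Or.inl h3
    · exact Or.inr ⟨l, ⟨t, hl⟩, h3⟩
  have hmem : ∀ l, G.lt l ∈ μ.support → l ∈ S t := by
    intro l hl
    rcases (mem_filter.1 (h2 hl)).2 with h3 | ⟨l', hl', h3⟩
    · exact absurd h3 (G.notZ l)
    · rw [G.inj h3]
      exact hl'
  obtain ⟨t', ht'⟩ := G.main μ.support (satP_supp hf μ hμ) hadm
  have htt : t' = t := hS t t' fun l hl => hmem l (ht' l hl)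
  subst htt
  refine ⟨μ, hμ, hadm, ?_⟩
  ext l
  rw [lx_apply, hm]
  split_ifs with h3
  · have h4 := hml μ hμ (G.lt l)
    have h5 := Nat.one_le_iff_ne_zero.2 (Finsupp.mem_support_iff.1 (ht' l h3))
    omega
  · by_contra h4
    exact h3 (hmem l (Finsupp.mem_support_iff.2 h4))

end test

end Pool.XDS
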