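import Pool.Agent.XDS.Core
import Pool.Agent.XDS.Test
import Pool.Agent.XDA.Prep

/-!
# One sided tests for `k`-SAT: the core inequality
-/

set_option autoImplicit false

namespace Pool.XDS

open Finset Pool.XD Pool.XDA Pool.SatDet Pool.Agent.Helper41.CD Pool.Agent.Helper59.CDT

/-- **the core inequality** for one test: `C` is a set of words whose formulas are accepted -/
theorem sat_core {n d g kb l k T S w w0 : ℕ} {F : Type} [Field F] {HU HV : ℝ} {τ : ℕ → Bool}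
    (hkb : 1 ≤ kb) (hHU : 1 < HU) (hHV : 1 < HV) (hbU : Bal τ true HU)
    (hbV : Bal τ false HV)
    (hlU : 4 * ((kb + l : ℕ) : ℝ) ^ 2 * HU ≤ 2 ^ l) (hlV : 4 * ((kb + l : ℕ) : ℝ) ^ 2 * HV ≤ 2 ^ l)
    (G : Gad n d (gS (g := g) (ltS (k := kb) l)))
    (f : Fin T → Fin S → MvPolynomial (Clause n (d + 1)) F) (hf : ∀ i j, f i j ∈ Cls w0 w S k)
    (hS : 1 ≤ S) (hw : 1 ≤ w) (hw0 : 1 ≤ w0)
    (hml : ∀ μ ∈ (∑ i, ∏ j, f i j).support, ∀ c, μ c ≤ 1)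
    (hno : ∀ U : Finset (Clause n (d + 1)), ¬ SatP n (d + 1) U → rst U (∑ i, ∏ j, f i j) = 0)
    (C : Finset (Fin g → Fin kb → Bool)) (hC : ∀ s ∈ C, rst (Uw G s) (∑ i, ∏ j, f i j) ≠ 0)
    {X Y : ℕ → ℝ} (hX : ∀ i, 0 < X i) (hY : ∀ i, 0 < Y i) (hX0 : X 0 = 1) (hY0 : Y 0 = 1)
    (hnum : ∀ i ≤ 2 * k, NumD (g * (kb + l)) (S * ((g * (kb + l) : ℕ) + 1) ^
      (8 * (w0 + w) + 16)) HU HV (X i) (Y i) (X (i + 1)) (Y (i + 1))) :
    ∃ r E : ℕ, r = cnt τ true 0 (kb + l) ∧ E = cnt τ false 0 (kb + l) ∧ r + E = kb + l ∧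
      (C.card : ℝ) ≤ (4 * (r + 1) * (E + 1)) ^ g * (T * (((g * (kb + l) : ℕ) + 1 : ℝ) ^ 16 *
        (X (2 * k + 1) ^ (g * r) * Y (2 * k + 1) ^ (g * E)))) := by
  classical
  obtain ⟨r, hr⟩ : ∃ r, r = cnt τ true 0 (kb + l) := ⟨_, rfl⟩
  obtain ⟨E, hE⟩ : ∃ E, E = cnt τ false 0 (kb + l) := ⟨_, rfl⟩
  obtain ⟨h1U, h1V, hrE, LU, LV, hL1, hL2, hL3, hL4, hL5⟩ :=
    exists_params hkb hHU hHV hbU hbV hlU hlV hr hE
  refine ⟨r, E, hr, hE, hrE, ?_⟩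
  have hkl : (kb : ℝ) ^ 2 ≤ ((kb + l : ℕ) : ℝ) ^ 2 := by
    apply pow_le_pow_left₀ (Nat.cast_nonneg _)
    exact_mod_cast Nat.le_add_right kb l
  have hkey := count_words (lty (k := kb) (l := l) τ) (ltS (k := kb) l) (r := r) (E := E) hL1
    (fun s => by rw [hr]; exact ltS_card τ true s) (fun s => by rw [hE]; exact ltS_card τ false s)
    hHU.le hHV.le h1U h1V hL2 hL3 hL4 hL5
    (ltS_sparse τ true hHU.le hbU (le_trans (by gcongr) hlU))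
    (ltS_sparse τ false hHV.le hbV (le_trans (by gcongr) hlV))
    (fun i j => tst G (f i j)) (fun i j => tst_cls G (hf i j)) hS hw hw0 ?_ C ?_ hX hY hX0 hY0
    (by rw [hrE]; exact hnum)
  · rw [hrE] at hkey
    exact hkey
  · intro μ hμ
    rw [← tst_sum_prod] at hμ
    obtain ⟨t, ht⟩ := word_le G hno (MvPolynomial.mem_support_iff.2 hμ)
    refine ⟨t, fun x => ?_⟩
    obtain ⟨i, y⟩ := x
    rw [cmon_ap]
    split_ifs with h
    · exact ht (i, y) ((mem_gS _ t (i, y)).2 h)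
    · exact Nat.zero_le _
  · intro s hs
    rw [← tst_sum_prod]
    apply MvPolynomial.mem_support_iff.1
    exact coeff_word G (fun t t' h => gS_subset_eq h) hno hml (hC s hs) (fun x => by
      obtain ⟨i, y⟩ := x
      rw [cmon_ap]
      by_cases h : y ∈ ltS (k := kb) l (s i)
      · rw [if_pos h, if_pos ((mem_gS _ s (i, y)).2 h)]
      · rw [if_neg h, if_neg (fun h' => h ((mem_gS _ s (i, y)).1 h'))])

end Pool.XDS
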