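import Mathlib.Analysis.SpecialFunctions.Log.Basic
import Mathlib.Analysis.Complex.ExponentialBounds

/-!
# XDS, row N'': from `(n - d) / 4` to `n`
-/

set_option autoImplicit false

namespace Pool.XDS

/-- the bound for `(n - d) / 4` gives the bound for `n` -/
theorem num_scale (C : ℝ) (hC : 1 ≤ C) (d : ℕ) : ∃ C2 : ℝ, 1 ≤ C2 ∧
    ∀ (n S w w0 p : ℕ) (τ : ℝ), 1 ≤ n → 1 ≤ τ → 2 ≤ S → 1 ≤ w → 1 ≤ w0 →
      (1 ≤ (n - d) / 4 → (((n - d) / 4 : ℕ) : ℝ) ≤
        C * Real.log (2 * ((n - d) / 4 : ℕ) * τ) *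
          (C * (Real.log S + (w + w0) * Real.log (2 * ((n - d) / 4 : ℕ)))) ^ p) →
      (n : ℝ) ≤ C2 * Real.log (2 * n * τ) *
        (C2 * (Real.log S + (w + w0) * Real.log (2 * n))) ^ p := by
  refine ⟨2 * (d + 7) * C, ?_, ?_⟩
  · have : (0 : ℝ) ≤ d := Nat.cast_nonneg d
    nlinarith
  intro n S w w0 p τ hn hτ hS hw hw0 h
  have hd : (0 : ℝ) ≤ d := Nat.cast_nonneg d
  have hn1 : (1 : ℝ) ≤ n := by exact_mod_cast hn
  have hw1 : (1 : ℝ) ≤ w := by exact_mod_cast hw
  have hw01 : (1 : ℝ) ≤ w0 := by exact_mod_cast hw0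
  have hS1 : (2 : ℝ) ≤ S := by exact_mod_cast hS
  have hl2 : (0.5 : ℝ) ≤ Real.log 2 := by
    have := Real.log_two_gt_d9
    linarith
  have hlS : Real.log 2 ≤ Real.log S := Real.log_le_log (by norm_num) hS1
  have hln : Real.log 2 ≤ Real.log (2 * n) := Real.log_le_log (by norm_num) (by linarith)
  have hlt : Real.log 2 ≤ Real.log (2 * n * τ) := Real.log_le_log (by norm_num) (by nlinarith)
  set σ : ℝ := Real.log S + (w + w0) * Real.log (2 * n) with hσ
  have hσ1 : 1 ≤ σ := by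
    have : 2 * Real.log 2 ≤ ((w : ℝ) + w0) * Real.log (2 * n) := by nlinarith
    linarith
  have hC2 : C ≤ 2 * (d + 7) * C := by nlinarith
  have hC21 : 1 ≤ 2 * ((d : ℝ) + 7) * C := by nlinarith
  have hpow : 1 ≤ (2 * (d + 7) * C * σ) ^ p := one_le_pow₀ (by nlinarith)
  by_cases h0 : 1 ≤ (n - d) / 4
  · have h1 := h h0
    set m : ℕ := (n - d) / 4 with hm
    have hm1 : (1 : ℝ) ≤ m := by exact_mod_cast h0
    have hmn : m ≤ n := by omega
    have hmn' : (m : ℝ) ≤ n := by exact_mod_cast hmn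
    have hnm : n ≤ d + 4 * m + 3 := by omega
    have hnm' : (n : ℝ) ≤ d + 4 * m + 3 := by exact_mod_cast hnm
    have e1 : Real.log (2 * m * τ) ≤ Real.log (2 * n * τ) :=
      Real.log_le_log (by positivity) (by nlinarith)
    have e2 : Real.log (2 * m) ≤ Real.log (2 * n) :=
      Real.log_le_log (by positivity) (by linarith)
    have e3 : Real.log S + (w + w0) * Real.log (2 * m) ≤ σ := by
      rw [hσ]
      have : ((w : ℝ) + w0) * Real.log (2 * m) ≤ (w + w0) * Real.log (2 * n) :=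
        mul_le_mul_of_nonneg_left e2 (by positivity)
      linarith
    have e4 : 0 ≤ Real.log (2 * m) := Real.log_nonneg (by linarith)
    have e5 : (C * (Real.log S + (w + w0) * Real.log (2 * m))) ^ p ≤
        (2 * (d + 7) * C * σ) ^ p := by
      refine pow_le_pow_left₀ (by positivity) ?_ p
      exact mul_le_mul hC2 e3 (by positivity) (by positivity)
    have e6 : (m : ℝ) ≤ C * Real.log (2 * n * τ) * (2 * (d + 7) * C * σ) ^ p := by
      refine h1.trans ?_
      refine mul_le_mul (mul_le_mul_of_nonneg_left e1 (by linarith)) e5 (by positivity) ?_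
      have : 0 ≤ Real.log (2 * n * τ) := by linarith
      positivity
    have e7 : (n : ℝ) ≤ (d + 7) * m := by nlinarith
    calc (n : ℝ) ≤ (d + 7) * m := e7
      _ ≤ (d + 7) * (C * Real.log (2 * n * τ) * (2 * (d + 7) * C * σ) ^ p) :=
        mul_le_mul_of_nonneg_left e6 (by linarith)
      _ = ((d + 7) * C) * Real.log (2 * n * τ) * (2 * (d + 7) * C * σ) ^ p := by ring
      _ ≤ (2 * (d + 7) * C) * Real.log (2 * n * τ) * (2 * (d + 7) * C * σ) ^ p := by
        have e8 : 0 ≤ Real.log (2 * n * τ) := by linarith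
        have e9 : ((d : ℝ) + 7) * C ≤ 2 * (d + 7) * C := by nlinarith
        exact mul_le_mul_of_nonneg_right (mul_le_mul_of_nonneg_right e9 e8) (by positivity)
  · have hnd : n ≤ d + 3 := by omega
    have hnd' : (n : ℝ) ≤ d + 3 := by exact_mod_cast hnd
    have e1 : (d : ℝ) + 3 ≤ 2 * (d + 7) * C * Real.log (2 * n * τ) := by
      have : (d : ℝ) + 7 ≤ 2 * (d + 7) * C * Real.log (2 * n * τ) := by
        have e2 : (1 : ℝ) ≤ 2 * Real.log (2 * n * τ) := by linarith
        calc (d : ℝ) + 7 = (d + 7) * 1 * 1 := by ring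
          _ ≤ (d + 7) * C * (2 * Real.log (2 * n * τ)) := by
            refine mul_le_mul (mul_le_mul_of_nonneg_left hC (by linarith)) e2 (by norm_num) ?_
            positivity
          _ = _ := by ring
      linarith
    calc (n : ℝ) ≤ d + 3 := hnd'
      _ ≤ 2 * (d + 7) * C * Real.log (2 * n * τ) := e1
      _ = 2 * (d + 7) * C * Real.log (2 * n * τ) * 1 := by ring
      _ ≤ _ := by
        refine mul_le_mul_of_nonneg_left hpow ?_
        linarith

end Pool.XDS
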