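import Pool.Agent.XDS.Local
import Pool.Agent.XDA.Defs

/-!
# The gadget for `k`-SAT: words of bits, overlapping windows as blocks

For every chunk `i`, block `j` and content `z` there are two variables: `the block has the content
z` and a ladder variable. A satisfiable formula which contains (in its complement) only free clauses
and letters contains all letters of some word.
-/

set_option autoImplicit false

namespace Pool.XDS

open Finset Pool.SatDet Pool.XDA

/-- the letters of a word of `g` chunks -/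
def gS {g : ℕ} {W L : Type} [DecidableEq L] [Fintype L] (S : W → Finset L) (s : Fin g → W) :
    Finset (Fin g × L) := univ.filter fun x => x.2 ∈ S (s x.1)

theorem mem_gS {g : ℕ} {W L : Type} [DecidableEq L] [Fintype L] (S : W → Finset L)
    (s : Fin g → W) (x : Fin g × L) : x ∈ gS S s ↔ x.2 ∈ S (s x.1) := by
  rw [gS, mem_filter]
  simp only [mem_univ, true_and]

/-- the gadget: letters `lt`, free clauses `Z` -/
structure Gad (n d : ℕ) {W L : Type} (S : W → Finset L) where
  /-- the clause of a letter -/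
  lt : L → Clause n (d + 1)
  /-- the free clauses -/
  Z : Finset (Clause n (d + 1))
  inj : Function.Injective lt
  notZ : ∀ l, lt l ∉ Z
  main : ∀ U : Finset (Clause n (d + 1)), SatP n (d + 1) U →
    (∀ C ∈ U, C ∈ Z ∨ ∃ l, (∃ t, l ∈ S t) ∧ C = lt l) → ∃ t, ∀ l ∈ S t, lt l ∈ U
  sat : ∀ t, ∃! a : Fin n → Bool, ∀ C, ¬ Sats a C → C ∈ Z ∨ ∃ l ∈ S t, C = lt l

section windows

variable {g k l R n d : ℕ}

/-- the variables -/
abbrev Gv (g k l R : ℕ) : Type := ((Fin g × Lt k l) × Bool) ⊕ Fin R

/-- the numbers of the contents -/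
noncomputable def idx (l : ℕ) : (Fin (l + 1) → Bool) ≃ Fin (Fintype.card (Fin (l + 1) → Bool)) :=
  Fintype.equivFin _

/-- the assignment of a word -/
noncomputable def val (s : Fin g → Fin k → Bool) : Gv g k l R → Bool
  | Sum.inl (x, false) => decide (x.2.2 = win l (s x.1) x.2.1)
  | Sum.inl (x, true) => decide (idx l x.2.2 ≤ idx l (win l (s x.1) x.2.1))
  | Sum.inr _ => false

/-- the assignment of a word -/
noncomputable def asg (ε : Gv g k l R ≃ Fin n) (s : Fin g → Fin k → Bool) (i : Fin n) : Bool :=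
  val s (ε.symm i)

theorem loc_windows (ε : Gv g k l R ≃ Fin n) : Loc3 (asg (g := g) (k := k) (l := l) ε) := by
  classical
  intro a hT
  have hloc : ∀ x y z : Gv g k l R, ∃ s : Fin g → Fin k → Bool,
      a (ε x) = val s x ∧ a (ε y) = val s y ∧ a (ε z) = val s z := by
    intro x y z
    obtain ⟨s, hs⟩ := hT {ε x, ε y, ε z} Finset.card_le_three
    have h : ∀ w, a (ε w) = asg ε s (ε w) → a (ε w) = val s w := by
      intro w hw
      rw [hw, asg, Equiv.symm_apply_apply]
    exact ⟨s, h x (hs _ (by simp)), h y (hs _ (by simp)), h z (hs _ (by simp))⟩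
  have hcard : 0 < Fintype.card (Fin (l + 1) → Bool) := Fintype.card_pos
  -- the ladder
  have hex : ∀ (i : Fin g) (j : Fin (k + l)), ∃ z : Fin (l + 1) → Bool,
      a (ε (Sum.inl ((i, j, z), false))) = true := by
    intro i j
    by_contra hcon
    push Not at hcon
    have hu : ∀ z : Fin (l + 1) → Bool, a (ε (Sum.inl ((i, j, z), false))) = false := by
      intro z
      simpa using hcon z
    have key : ∀ (m : ℕ) (hm : m < Fintype.card (Fin (l + 1) → Bool)),
        a (ε (Sum.inl ((i, j, (idx l).symm ⟨m, hm⟩), true))) = true := by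
      intro m
      induction m with
      | zero =>
        intro hm
        obtain ⟨s, h1, -⟩ := hloc (Sum.inl ((i, j, (idx l).symm ⟨0, hm⟩), true))
          (Sum.inl ((i, j, (idx l).symm ⟨0, hm⟩), true))
          (Sum.inl ((i, j, (idx l).symm ⟨0, hm⟩), true))
        rw [h1]
        simp only [val, decide_eq_true_eq, Equiv.apply_symm_apply]
        exact Nat.zero_le _
      | succ m ih =>
        intro hm
        obtain ⟨s, h1, h2, h3⟩ := hloc
          (Sum.inl ((i, j, (idx l).symm ⟨m, by omega⟩), true))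
          (Sum.inl ((i, j, (idx l).symm ⟨m, by omega⟩), false))
          (Sum.inl ((i, j, (idx l).symm ⟨m + 1, hm⟩), true))
        rw [ih] at h1
        rw [hu] at h2
        simp only [val, Equiv.apply_symm_apply] at h1 h2 h3
        have h4 : (⟨m, by omega⟩ : Fin _) ≤ idx l (win l (s i) j) := by simpa using h1.symm
        have h5 : (idx l).symm ⟨m, by omega⟩ ≠ win l (s i) j := by simpa using h2.symm
        have h6 : (⟨m, by omega⟩ : Fin _) ≠ idx l (win l (s i) j) := by
          intro h7
          apply h5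
          rw [h7, Equiv.symm_apply_apply]
        rw [h3, decide_eq_true_eq]
        exact lt_of_le_of_ne h4 h6
    obtain ⟨s, h1, h2, -⟩ := hloc
      (Sum.inl ((i, j, (idx l).symm ⟨Fintype.card (Fin (l + 1) → Bool) - 1, by omega⟩), true))
      (Sum.inl ((i, j, (idx l).symm ⟨Fintype.card (Fin (l + 1) → Bool) - 1, by omega⟩), false))
      (Sum.inl ((i, j, (idx l).symm ⟨Fintype.card (Fin (l + 1) → Bool) - 1, by omega⟩), false))
    rw [key] at h1
    rw [hu] at h2
    simp only [val, Equiv.apply_symm_apply] at h1 h2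
    have h4 : (⟨Fintype.card (Fin (l + 1) → Bool) - 1, by omega⟩ : Fin _) ≤
        idx l (win l (s i) j) := by simpa using h1.symm
    have h5 : (idx l).symm ⟨Fintype.card (Fin (l + 1) → Bool) - 1, by omega⟩ ≠
        win l (s i) j := by simpa using h2.symm
    apply h5
    rw [Equiv.symm_apply_eq]
    apply Fin.ext
    have h6 := (idx l (win l (s i) j)).2
    have h7 : Fintype.card (Fin (l + 1) → Bool) - 1 ≤ (idx l (win l (s i) j) : ℕ) := h4
    simp only
    omega
  choose c hc using hex
  -- the word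
  set s : Fin g → Fin k → Bool := fun i p => c i ⟨p.1, by omega⟩ 0 with hs
  have hwin : ∀ i j, c i j = win l (s i) j := by
    intro i j
    funext q
    rw [win]
    split_ifs with hq
    · have hj : j.1 - q.1 < k + l := by omega
      obtain ⟨t, h1, h2, -⟩ := hloc (Sum.inl ((i, j, c i j), false))
        (Sum.inl ((i, ⟨j.1 - q.1, hj⟩, c i ⟨j.1 - q.1, hj⟩), false))
        (Sum.inl ((i, j, c i j), false))
      rw [hc] at h1 h2
      simp only [val] at h1 h2
      have h3 := of_decide_eq_true h1.symm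
      have h4 := of_decide_eq_true h2.symm
      have h5 : c i j q = bit (t i) (j.1 - q.1) := by
        rw [h3, win, if_pos hq]
      have h6 : c i ⟨j.1 - q.1, hj⟩ 0 = bit (t i) (j.1 - q.1) := by
        rw [h4]
        simp [win]
      rw [h5]
      unfold bit
      split_ifs with h7
      · simp only [hs]
        rw [h6, bit, dif_pos h7]
      · rfl
    · obtain ⟨t, h1, -⟩ := hloc (Sum.inl ((i, j, c i j), false))
        (Sum.inl ((i, j, c i j), false)) (Sum.inl ((i, j, c i j), false))
      rw [hc] at h1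
      simp only [val] at h1
      have h3 := of_decide_eq_true h1.symm
      rw [h3, win, if_neg hq]
  refine ⟨s, ?_⟩
  funext v
  obtain ⟨w, rfl⟩ := ε.surjective v
  rw [asg, Equiv.symm_apply_apply]
  rcases w with ⟨⟨i, j, z⟩, b⟩ | r
  · obtain ⟨t, h1, h2, -⟩ := hloc (Sum.inl ((i, j, z), b)) (Sum.inl ((i, j, c i j), false))
      (Sum.inl ((i, j, c i j), false))
    rw [hc] at h2
    simp only [val] at h2
    have h3 := of_decide_eq_true h2.symm
    rw [h1]
    cases b
    · simp only [val]
      rw [← hwin, h3]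
    · simp only [val]
      rw [← hwin, h3]
  · obtain ⟨t, h1, -⟩ := hloc (Sum.inr r) (Sum.inr r) (Sum.inr r)
    rw [h1]
    rfl

theorem asg_let (ε : Gv g k l R ≃ Fin n) (s : Fin g → Fin k → Bool) (x : Fin g × Lt k l) :
    asg ε s (ε (Sum.inl (x, false))) = true ↔ x ∈ gS (ltS (k := k) l) s := by
  rw [asg, Equiv.symm_apply_apply, mem_gS]
  obtain ⟨i, j, z⟩ := x
  simp only [val, decide_eq_true_eq, ltS, mem_image, mem_univ, true_and, Prod.mk.injEq]
  constructor
  · intro h
    exact ⟨j, rfl, h.symm⟩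
  · rintro ⟨j', rfl, h⟩
    exact h.symm

theorem gS_subset_eq {s t : Fin g → Fin k → Bool}
    (h : gS (ltS (k := k) l) s ⊆ gS (ltS (k := k) l) t) : s = t := by
  funext i p
  have h1 : ((i, ((⟨p.1, by omega⟩ : Fin (k + l)), win l (s i) p.1)) : Fin g × Lt k l) ∈
      gS (ltS (k := k) l) s := by
    rw [mem_gS, ltS, mem_image]
    exact ⟨⟨p.1, by omega⟩, mem_univ _, rfl⟩
  have h2 := h h1
  rw [mem_gS, ltS, mem_image] at h2
  obtain ⟨j, -, hj⟩ := h2
  have h3 : j = ⟨p.1, by omega⟩ := congrArg Prod.fst hj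
  have h4 : win l (t i) j = win l (s i) p.1 := congrArg Prod.snd hj
  rw [h3] at h4
  have h5 := congrFun h4 0
  simpa [win, bit] using h5.symm

/-- the gadget -/
noncomputable def gadW (ε : Gv g k l R ≃ Fin n) {P0 : Finset (Fin n)} (hP0 : P0.card = d)
    (hP : ∀ i ∈ P0, ∃ r : Fin R, i = ε (Sum.inr r)) (hd : 2 ≤ d) (hk : d + 1 ≤ n) :
    Gad n d (gS (g := g) (ltS (k := k) l)) := by
  classical
  have hx : ∀ x : Fin g × Lt k l, ε (Sum.inl (x, false)) ∉ P0 := by
    intro x hx
    obtain ⟨r, hr⟩ := hP _ hx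
    exact absurd (ε.injective hr) (by simp)
  have hinj : Function.Injective fun x : Fin g × Lt k l => ε (Sum.inl (x, false)) := by
    intro x y hxy
    have := ε.injective hxy
    simpa using this
  have has : ∀ s : Fin g → Fin k → Bool, ∀ i ∈ P0, asg ε s i = false := by
    intro s i hi
    obtain ⟨r, rfl⟩ := hP i hi
    rw [asg, Equiv.symm_apply_apply]
    rfl
  refine
  { lt := lcl (fun x => ε (Sum.inl (x, false))) P0 hP0 hx
    Z := Zf (asg ε) (fun x => ε (Sum.inl (x, false))) P0 hP0 hx
    inj := lcl_inj _ _ hP0 hx hinj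
    notZ := lcl_notMem _ _ _ hP0 hx
    main := ?_
    sat := ?_ }
  · rintro U ⟨a, ha⟩ hU
    obtain ⟨t, -, ht⟩ := main_loc (asg ε) _ P0 hP0 hx has hk hd (loc_windows ε) (U := U)
      (fun C hC => by
        rcases hU C hC with h | ⟨x, ⟨t, ht⟩, h⟩
        · exact Or.inl h
        · exact Or.inr ⟨x, ⟨t, (asg_let ε t x).2 ht⟩, h⟩) ha
    exact ⟨t, fun x hx => ht x ((asg_let ε t x).2 hx)⟩
  · intro t
    refine ⟨asg ε t, ?_, ?_⟩
    · intro C hC
      by_cases h : ∃ x, C = lcl (fun x => ε (Sum.inl (x, false))) P0 hP0 hx x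
      · obtain ⟨x, rfl⟩ := h
        rw [viol_lcl _ _ hP0 hx x _ (has t)] at hC
        exact Or.inr ⟨x, (asg_let ε t x).1 hC, rfl⟩
      · push Not at h
        exact Or.inl ((mem_Zf _ _ _ _ _ _).2 ⟨⟨t, hC⟩, h⟩)
    · intro a ha
      set U : Finset (Clause n (d + 1)) := univ.filter fun C =>
        C ∈ Zf (asg ε) (fun x => ε (Sum.inl (x, false))) P0 hP0 hx ∨
          ∃ x ∈ gS (g := g) (ltS (k := k) l) t, C = lcl (fun x => ε (Sum.inl (x, false))) P0 hP0 hx x
        with hU
      obtain ⟨t', ht', hl⟩ := main_loc (asg ε) _ P0 hP0 hx has hk hd (loc_windows ε) (U := U)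
        (fun C hC => by
          rcases (mem_filter.1 hC).2 with h | ⟨x, h1, h⟩
          · exact Or.inl h
          · exact Or.inr ⟨x, ⟨t, (asg_let ε t x).2 h1⟩, h⟩)
        (a := a) (fun C hC => mem_filter.2 ⟨mem_univ _, ha C hC⟩)
      rw [ht']
      congr 1
      apply gS_subset_eq (l := l)
      intro x hxt
      have h1 := hl x ((asg_let ε t' x).2 hxt)
      rcases (mem_filter.1 h1).2 with h2 | ⟨y, hy, h2⟩
      · exact absurd h2 (lcl_notMem _ _ _ hP0 hx x)
      · rw [lcl_inj _ _ hP0 hx hinj h2]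
        exact hy

/-- **the gadget exists** -/
theorem exists_gad {g k l n d : ℕ} (hd : 2 ≤ d) (hg : 1 ≤ g) (hkl : 1 ≤ k + l)
    (hn : 2 * (g * ((k + l) * 2 ^ (l + 1))) + d ≤ n) :
    Nonempty (Gad n d (gS (g := g) (ltS (k := k) l))) := by
  classical
  have hcard : Fintype.card (Fin g × Lt k l) = g * ((k + l) * 2 ^ (l + 1)) := by
    rw [Fintype.card_prod, Fintype.card_prod, Fintype.card_fin, Fintype.card_fin,
      Fintype.card_fun, Fintype.card_bool, Fintype.card_fin]
  obtain ⟨R, hR⟩ : ∃ R, 2 * Fintype.card (Fin g × Lt k l) + R = n :=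
    ⟨n - 2 * Fintype.card (Fin g × Lt k l), by omega⟩
  have hdR : d ≤ R := by omega
  have hc : Fintype.card (Gv g k l R) = n := by
    rw [Fintype.card_sum, Fintype.card_prod, Fintype.card_bool, Fintype.card_fin]
    omega
  obtain ⟨ε⟩ : Nonempty (Gv g k l R ≃ Fin n) :=
    ⟨Fintype.equivOfCardEq (by rw [hc, Fintype.card_fin])⟩
  obtain ⟨P1, -, hP1⟩ := Finset.exists_subset_card_eq (s := (Finset.univ : Finset (Fin R)))
    (n := d) (by rw [Finset.card_univ, Fintype.card_fin]; exact hdR)
  have hL1 : 1 ≤ Fintype.card (Fin g × Lt k l) := by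
    rw [hcard]
    exact Nat.mul_pos hg (Nat.mul_pos hkl (by positivity))
  refine ⟨gadW ε (P0 := P1.map ⟨fun r => ε (Sum.inr r), fun r r' h => by
    simpa using ε.injective h⟩) (by rw [card_map, hP1]) (fun i hi => ?_) hd (by omega)⟩
  obtain ⟨r, -, hr⟩ := mem_map.1 hi
  exact ⟨r, hr.symm⟩

end windows

end Pool.XDS
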