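import Pool.Agent.XDS.Final
import Pool.Agent.Helper59.CDT.Clean

/-!
# One sided tests for `k`-SAT of constant depth: small degree implies multilinear
-/

set_option autoImplicit false

namespace Pool.XDS

open Finset MvPolynomial Pool.SatDet Pool.Agent.Helper59.CDT

open Classical in
/-- the theorem for polynomials `f ω` which are sums of products -/
theorem xds_clean (d : ℕ) (hd : 2 ≤ d) : ∃ C : ℝ, 1 ≤ C ∧
    ∀ (F : Type) [Field F] (Ω : Type) [Fintype Ω] (l n S w w0 T : ℕ) (δ : ℝ) (pr : Ω → ℝ)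
      (f : Ω → MvPolynomial (Clause n (d + 1)) F),
      1 ≤ n → 2 ≤ S → 1 ≤ w → 1 ≤ w0 → 1 ≤ T → 0 < δ → δ ≤ 1 → (∀ ω, 0 ≤ pr ω) →
      ∑ ω, pr ω = 1 →
      (∀ ω, ∃ h : Fin T → Fin S → MvPolynomial (Clause n (d + 1)) F,
        (∀ i j, h i j ∈ Pool.Agent.Helper41.CD.Cls w0 w S l) ∧ f ω = ∑ i, ∏ j, h i j) →
      (∀ ω, (∀ m ∈ (f ω).support, ∀ c, m c ≤ 1) ∨ (f ω).totalDegree ≤ n.choose (d + 1)) →
      (∀ φ : Finset (Clause n (d + 1)), (¬ ∃ a : Fin n → Bool, ∀ c ∈ φ, Sats a c) →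
        ∀ ω, onF φ (f ω) = 0) →
      (∀ φ : Finset (Clause n (d + 1)), (∃! a : Fin n → Bool, ∀ c ∈ φ, Sats a c) →
        δ ≤ ∑ ω, if onF φ (f ω) ≠ 0 then pr ω else 0) →
      (n : ℝ) ≤ C * Real.log (2 * n * T / δ) *
        (C * (Real.log S + (w + w0) * Real.log (2 * n))) ^
          (3 * (Nat.fib (2 * l + 4) - 2) + 1) := by
  obtain ⟨C, hC, H⟩ := xds d hd
  refine ⟨C, hC, ?_⟩
  intro F _ Ω _ l n S w w₀ T δ p f hn hS hw hw0 hT hδ hδ1 hp hp1 hf hml hno hyes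
  have hrst : ∀ (U : Finset (Clause n (d + 1))) (g : MvPolynomial (Clause n (d + 1)) F),
      rst U g = onF Uᶜ g := by
    intro U g
    unfold rst onF
    congr 2
    funext c
    by_cases h : c ∈ U
    · rw [if_pos h, if_neg (fun h' => (Finset.mem_compl.1 h') h)]
    · rw [if_neg h, if_pos (Finset.mem_compl.2 h)]
  have hno' : ∀ ω, ∀ U : Finset (Clause n (d + 1)), ¬ SatP n (d + 1) U → rst U (f ω) = 0 := by
    intro ω U hU
    rw [hrst]
    apply hno
    rintro ⟨a, ha⟩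
    apply hU
    refine ⟨a, fun c hc => ?_⟩
    by_contra h
    exact hc (ha c (Finset.mem_compl.2 h))
  choose h hh hfh using hf
  have key := H F Ω l n T S w w₀ δ p h hn hT hS hw hw0 hδ hδ1 hp hp1 hh ?_ ?_ ?_
  · rw [mul_div_assoc]
    exact key
  · intro ω m hm c
    rw [← hfh ω] at hm
    rcases hml ω with h1 | h1
    · exact h1 m hm c
    · exact ml_of_degree m (satP_support (hno' ω) m hm) ((le_totalDegree hm).trans h1) c
  · intro ω U hU
    rw [← hfh ω]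
    exact hno' ω U hU
  · intro U hU
    have h1 : ∃! a : Fin n → Bool, ∀ c ∈ Uᶜ, Sats a c := by
      obtain ⟨a, ha, hau⟩ := hU
      refine ⟨a, fun c hc => ha c (Finset.mem_compl.1 hc), fun b hb => hau b fun c hc => ?_⟩
      exact hb c (Finset.mem_compl.2 hc)
    have h2 := hyes Uᶜ h1
    refine h2.trans (le_of_eq (Finset.sum_congr rfl fun ω _ => ?_))
    rw [← hfh ω, hrst]

end Pool.XDS
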