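import Pool.Agent.XDS.Lift
import Pool.Agent.XDA.Iso
import Pool.Agent.XDA.Measure
import Pool.Agent.XD.Rank
import Pool.Agent.XD.Level
import Pool.Agent.XD.Measure
import Pool.Agent.XD.Shift
import Pool.Agent.CDep.Assembly

/-!
# The count of words for polynomials all of whose monomials contain a word
-/

set_option autoImplicit false

namespace Pool.XDS

open Finset Pool.XD Pool.XDA Pool.CD Pool.CDep Pool.Agent.Helper87.D3 Pool.Agent.Helper41.CD

theorem alg_aux (x κ A B x4 : ℝ) (h : x4 = 4 * x) (g : ℕ) :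
    x ^ g * (κ * (2 * A * B) ^ g) = (x4 ^ g * κ) * ((B / 2) ^ g * A ^ g) := by
  calc x ^ g * (κ * (2 * A * B) ^ g) = κ * (x ^ g * (2 * A * B) ^ g) := by ring
    _ = κ * (x * (2 * A * B)) ^ g := by rw [mul_pow x]
    _ = κ * ((x4 * (B / 2)) * A) ^ g := by
        congr 2
        rw [h]
        ring
    _ = (x4 ^ g * κ) * ((B / 2) ^ g * A ^ g) := by
        rw [mul_pow, mul_pow x4]
        ring

/-- **the count** -/
theorem count_words {K : Type} [Field K] {T S w w0 k g : ℕ} {L W : Type} [Fintype L]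
    [DecidableEq L] [Fintype W] [DecidableEq W] (ty : L → Bool) (Sw : W → Finset L)
    {r E LU LV : ℕ} {HU HV : ℝ} (hr : r ≤ LU)
    (hcU : ∀ s, ((Sw s).filter fun l => ty l = true).card = r)
    (hcV : ∀ s, ((Sw s).filter fun l => ty l = false).card = E)
    (hHU : 1 ≤ HU) (hHV : 1 ≤ HV) (h1U : 1 ≤ nU ty) (h1V : 1 ≤ nV ty)
    (hU : HU * LU ≤ nU ty + LU - 1) (hV : HV * LV ≤ nV ty + LV - 1)
    (hV' : (nV ty : ℝ) + LV ≤ HV * (LV + 1))
    (hmc : ((nU ty).multichoose LU : ℝ) ≤ 2 * HU ^ r * (nU ty).multichoose (LU - r))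
    (hsU : Sparse ty Sw true HU) (hsV : Sparse ty Sw false HV)
    (f : Fin T → Fin S → MvPolynomial (Fin g × L) K) (hf : ∀ i j, f i j ∈ Cls w0 w S k)
    (hS : 1 ≤ S) (hw : 1 ≤ w) (hw0 : 1 ≤ w0)
    (hsup : ∀ μ, MvPolynomial.coeff μ (∑ i, ∏ j, f i j) ≠ 0 → ∃ s, cmon Sw s ≤ μ)
    (C : Finset (Fin g → W)) (hC : ∀ s ∈ C, MvPolynomial.coeff (cmon Sw s) (∑ i, ∏ j, f i j) ≠ 0)
    {X Y : ℕ → ℝ} (hX : ∀ i, 0 < X i) (hY : ∀ i, 0 < Y i) (hX0 : X 0 = 1) (hY0 : Y 0 = 1)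
    (hnum : ∀ i ≤ 2 * k, NumD (g * (r + E)) (S * ((g * (r + E) : ℕ) + 1) ^ (8 * (w0 + w) + 16))
      HU HV (X i) (Y i) (X (i + 1)) (Y (i + 1))) :
    (C.card : ℝ) ≤ (4 * (r + 1) * (E + 1)) ^ g * (T * (((g * (r + E) : ℕ) + 1 : ℝ) ^ 16 *
      (X (2 * k + 1) ^ (g * r) * Y (2 * k + 1) ^ (g * E)))) := by
  classical
  obtain ⟨I, _, _, R, Q, wd, hwC, hcard, hi1, hi2⟩ := exists_iso ty Sw hr hcU hcV hHU hHV
    hU hV hsU hsV C
  obtain ⟨f', hf', hdet⟩ := exists_lift f hf ty Sw hr hcU hcV hsup R Q wd hi1 hi2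
    (fun i => hC _ (hwC i))
  have hHU0 : 0 < HU := by linarith
  have hHV0 : 0 < HV := by linarith
  -- the machine
  obtain ⟨SU, SV, hSU, hSV⟩ := exists_sub (cty ty g) (K := LField K)
  have hfV := filt_VV (cty ty g) (K := LField K)
  have hfU := filt_UU (cty ty g) (K := LField K)
  obtain ⟨Wp, hWp, hmach⟩ := level_machine (σ := Fin g × L) (K := LField K)
    (B := MvPolynomial (Fin g × L) (LField K))
    (Pool.CD.cost_Nu hfV hfU hHV0.le hHU0.le) (Pool.CD.big_Bi hfV hfU) hHU0 hHV0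
    (Pool.CD.leaf_Bi hfV hfU HV HU) SU SV
    (fun a ha b hb => by
      have h1 := Pool.CD.Nu.ofMul (V := VV (cty ty g) (LField K)) (U := UU (cty ty g) (LField K))
        (hv := HV) (hu := HU) ((hSU a).1 ha) ((hSV b).1 hb)
      rwa [pow_zero, pow_zero, mul_one] at h1)
    (PhiX (cty ty g)) (PhiX_mem _) (PhiX_zero _)
    (fun c p hp => by
      obtain ⟨α, hα, β, hβ, h1⟩ := PhiX_one (cty ty g) c p hp
      exact ⟨α, (hSU α).2 hα, β, (hSV β).2 hβ, h1⟩)
    (d := g * (r + E)) hw0 hw hS hX hY hX0 hY0 hnum f' hf'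
  obtain ⟨c, hc⟩ := exists_nat_mul_eval (vpi_ne_zero K) Wp hWp
  have hNu := hmach (fun l => (c l : LField K) * vpi K) hc (g * r) (g * E) (by
    rw [Nat.mul_add])
  -- the rank
  set P := cf (g * r) (g * E) (PhiX (cty ty g) (fun l => (c l : LField K) * vpi K)
    (∑ i, ∏ j, f' i j)) with hP
  have hrank1 := rank_cM_le ty (g := g) (E := E) hHU hHV hr h1U h1V hU hV' P hNu
  have hrank2 : Fintype.card I ≤ (cM ty P LU LV (LU - r) (LV + E)).rank := by
    set e := Fintype.equivFin I with he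
    refine le_rank_of_minor (r := Fintype.card I) _ (fun i => R (e.symm i))
      (fun i => Q (e.symm i)) ?_
    have h1 := hdet c
    have h2 : ((cM ty P LU LV (LU - r) (LV + E)).submatrix (fun i => R (e.symm i))
        (fun i => Q (e.symm i))) = (Matrix.of fun i i' : I => cM ty P LU LV (LU - r) (LV + E)
          (R i) (Q i')).submatrix e.symm e.symm := rfl
    rw [h2, Matrix.det_submatrix_equiv_self]
    exact h1
  -- conclusion
  set κ : ℝ := T * (((g * (r + E) : ℕ) + 1 : ℝ) ^ 16 * (X (2 * k + 1) ^ (g * r) *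
      Y (2 * k + 1) ^ (g * E))) with hκ
  set a : ℝ := ((nU ty).multichoose (LU - r) : ℝ) with ha
  set b : ℝ := ((nV ty).multichoose LV : ℝ) with hb
  have ha0 : 0 < a := by
    rw [ha, Nat.multichoose_eq]
    exact_mod_cast Nat.choose_pos (by omega)
  have hb0 : 0 < b := by
    rw [hb, Nat.multichoose_eq]
    exact_mod_cast Nat.choose_pos (by omega)
  have hκ0 : 0 ≤ κ := by
    have h1 := hX (2 * k + 1)
    have h2 := hY (2 * k + 1)
    positivity
  have e1 : (C.card : ℝ) * (a * b / 2) ^ g ≤ ((cM ty P LU LV (LU - r) (LV + E)).rank : ℝ) := by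
    refine le_trans ?_ (hcard.trans (by exact_mod_cast hrank2))
    rw [Nat.cast_mul]
  have e2 : (((nU ty).multichoose LU * (nV ty).multichoose LV : ℕ) : ℝ) ^ g ≤
      (2 * HU ^ r * (a * b)) ^ g := by
    apply pow_le_pow_left₀ (Nat.cast_nonneg _)
    rw [Nat.cast_mul]
    calc ((nU ty).multichoose LU : ℝ) * ((nV ty).multichoose LV : ℝ)
        ≤ (2 * HU ^ r * a) * b := mul_le_mul_of_nonneg_right hmc hb0.le
      _ = 2 * HU ^ r * (a * b) := by ring
  have e3 : (C.card : ℝ) * (a * b / 2) ^ g * HU ^ (g * r) ≤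
      ((r + 1) * (E + 1) : ℝ) ^ g * (κ * (2 * HU ^ r * (a * b)) ^ g) := by
    refine (mul_le_mul_of_nonneg_right e1 (by positivity)).trans (hrank1.trans ?_)
    apply mul_le_mul_of_nonneg_left _ (by positivity)
    exact mul_le_mul_of_nonneg_left e2 hκ0
  have hpos : 0 < (a * b / 2) ^ g * HU ^ (g * r) := by positivity
  have e4 : (C.card : ℝ) * ((a * b / 2) ^ g * HU ^ (g * r)) ≤
      ((4 * (r + 1) * (E + 1)) ^ g * κ) * ((a * b / 2) ^ g * HU ^ (g * r)) := by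
    calc (C.card : ℝ) * ((a * b / 2) ^ g * HU ^ (g * r)) =
          (C.card : ℝ) * (a * b / 2) ^ g * HU ^ (g * r) := by ring
      _ ≤ ((r + 1) * (E + 1) : ℝ) ^ g * (κ * (2 * HU ^ r * (a * b)) ^ g) := e3
      _ = ((4 * (r + 1) * (E + 1)) ^ g * κ) * ((a * b / 2) ^ g * HU ^ (g * r)) := by
          have h5 : HU ^ (g * r) = (HU ^ r) ^ g := by rw [mul_comm, pow_mul]
          rw [h5]
          exact alg_aux ((r + 1) * (E + 1)) κ (HU ^ r) (a * b) (4 * (r + 1) * (E + 1)) (by ring) g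
  exact le_of_mul_le_mul_right e4 hpos

end Pool.XDS
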