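import Pool.Agent.XDA.Num
import Pool.Agent.XDS.Num
import Pool.Agent.XDS.Sat
import Pool.Agent.Helper59.CDT.Final

/-!
# One sided tests for `k`-SAT of constant depth: exponential lower bounds over every field
-/

set_option autoImplicit false

namespace Pool.XDS

open Finset MvPolynomial Pool.SatDet Pool.XDA Pool.XD Pool.CD Pool.CDep Pool.Agent.Helper41.CD
  Pool.Agent.Helper59.CDT

open Classical in
/-- **one sided tests of constant depth for `k`-SAT** (`k = d + 1`); `l` is the level -/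
theorem xds (d : ℕ) (hd : 2 ≤ d) : ∃ C : ℝ, 1 ≤ C ∧
    ∀ (F : Type) [Field F] (Ω : Type) [Fintype Ω] (l n T S w w0 : ℕ) (δ : ℝ) (pr : Ω → ℝ)
      (f : Ω → Fin T → Fin S → MvPolynomial (Clause n (d + 1)) F),
      1 ≤ n → 1 ≤ T → 2 ≤ S → 1 ≤ w → 1 ≤ w0 → 0 < δ → δ ≤ 1 → (∀ ω, 0 ≤ pr ω) →
      ∑ ω, pr ω = 1 → (∀ ω i j, f ω i j ∈ Cls w0 w S l) →
      (∀ ω, ∀ m ∈ (∑ i, ∏ j, f ω i j).support, ∀ c, m c ≤ 1) →
      (∀ ω, ∀ U : Finset (Clause n (d + 1)), ¬ SatP n (d + 1) U →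
        rst U (∑ i, ∏ j, f ω i j) = 0) →
      (∀ U : Finset (Clause n (d + 1)), (∃! a : Fin n → Bool, ∀ c, c ∉ U → Sats a c) →
        δ ≤ ∑ ω, if rst U (∑ i, ∏ j, f ω i j) ≠ 0 then pr ω else 0) →
      (n : ℝ) ≤ C * Real.log (2 * n * (T / δ)) *
        (C * (Real.log S + (w + w0) * Real.log (2 * n))) ^
          (3 * (Nat.fib (2 * l + 4) - 2) + 1) := by
  obtain ⟨C1, hC1, hfin⟩ := xda_final
  obtain ⟨C2, hC2, hsc⟩ := num_scale C1 hC1 d
  refine ⟨C2, hC2, ?_⟩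
  intro F _ Ω _ k n T S w w0 δ pr f hn hT hS hw hw0 hδ hδ1 hpr hpr1 hf hml hzero hacc
  have hTr : (1 : ℝ) ≤ T := by exact_mod_cast hT
  have hτ : 1 ≤ (T : ℝ) / δ := by
    rw [le_div_iff₀ hδ]
    linarith
  refine hsc n S w w0 _ (T / δ) hn hτ hS hw hw0 fun hn' => ?_
  obtain ⟨θ, kb, l, X, Y, h0, h1, hkb, hlU, hlV, hX0, hY0, hX, hY, hnum, hlast⟩ :=
    hfin k ((n - d) / 4) (T / δ) S w w0 hτ hS hw hw0
  refine hlast fun g hg hgn => ?_
  have h1' : 0 < 1 - θ := by linarith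
  obtain ⟨HU, hHU⟩ : ∃ H : ℝ, H = 2 ^ (1 / θ) := ⟨_, rfl⟩
  obtain ⟨HV, hHV⟩ : ∃ H : ℝ, H = 2 ^ (1 / (1 - θ)) := ⟨_, rfl⟩
  have hHU1 : 1 < HU := by
    rw [hHU]
    exact Real.one_lt_rpow (by norm_num) (by positivity)
  have hHV1 : 1 < HV := by
    rw [hHV]
    exact Real.one_lt_rpow (by norm_num) (by positivity)
  obtain ⟨τ, hbU, hbV, hcU, hcV⟩ := exists_types h0 h1
  rw [← hHU] at hbU hcU hlU hnum ⊢
  rw [← hHV] at hbV hcV hlV hnum ⊢
  have hsize : 2 * (g * ((kb + l) * 2 ^ (l + 1))) + d ≤ n := by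
    have e1 : 2 * (g * ((kb + l) * 2 ^ (l + 1))) = 4 * (g * ((kb + l) * 2 ^ l)) := by
      rw [pow_succ]
      ring
    rw [e1]
    omega
  obtain ⟨G⟩ := exists_gad (g := g) (k := kb) (l := l) hd hg (by omega) hsize
  -- a good choice
  obtain ⟨ω, hω⟩ := exists_many pr hpr hpr1
    (fun ω (s : Fin g → Fin kb → Bool) => rst (Uw G s) (∑ i, ∏ j, f ω i j) ≠ 0) δ
    (fun s => hacc _ (by
      obtain ⟨a, ha, hu⟩ := G.sat s
      refine ⟨a, fun c hc => ?_, fun b hb => hu b fun c hc => ?_⟩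
      · by_contra h
        exact hc (mem_filter.2 ⟨mem_univ _, ha c h⟩)
      · by_contra h
        exact hc (hb c fun h' => h (mem_filter.1 h').2)))
  have hd' : g * (kb + l) ≤ (n - d) / 4 := by
    have h2 : 1 ≤ 2 ^ l := Nat.one_le_two_pow
    nlinarith [Nat.mul_le_mul_left (g * (kb + l)) h2]
  obtain ⟨r, E, hr, hE, hrE, hcard⟩ := sat_core hkb hHU1 hHV1 hbU hbV hlU hlV G (f ω) (hf ω)
    (by omega) hw hw0 (hml ω) (hzero ω)
    (univ.filter fun s => rst (Uw G s) (∑ i, ∏ j, f ω i j) ≠ 0)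
    (fun s hs => (mem_filter.1 hs).2) hX hY hX0 hY0 (hnum _ hd')
  refine ⟨r, E, hrE, ?_, ?_, ?_⟩
  · rw [hr]
    exact hcU _
  · rw [hE]
    exact hcV _
  · have hW : (Fintype.card (Fin g → Fin kb → Bool) : ℝ) = 2 ^ (g * kb) := by
      rw [Fintype.card_fun, Fintype.card_fun, Fintype.card_bool, Fintype.card_fin,
        Fintype.card_fin]
      push_cast
      rw [pow_mul']
    rw [hW] at hω
    have h3 := hω.trans hcard
    rw [← mul_le_mul_iff_right₀ hδ]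
    refine h3.trans (le_of_eq ?_)
    field_simp

end Pool.XDS
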