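import Pool.Agent.XDA.Val

/-!
# XDS, row T3: the lift of a test polynomial to characteristic zero

A polynomial all of whose monomials contain a word is lifted from a field `K` to `LField K`, with
base points `c l * vpi K`, where `vpi K` is the image of an element of the kernel of
`LRing K → K`.  Modulo this element the matrix on the isolated entries is diagonal.
-/

set_option autoImplicit false
set_option linter.unusedSectionVars false
set_option linter.unusedVariables false
set_option linter.unusedSimpArgs false

namespace Pool.XDS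

open Finset Pool.XD Pool.XDA Pool.CD Pool.CDep Pool.Agent.Helper87.D3 Pool.Agent.Helper41.CD

section varpi

/-- an element of the kernel of `LRing E → E` -/
noncomputable def varpi (E : Type) [CommRing E] : LRing E := MvPolynomial.X (0 : E)

theorem proj_varpi (E : Type) [CommRing E] : proj E (varpi E) = 0 := by
  simp [proj, varpi]

/-- its image in `LField E` -/
noncomputable def vpi (E : Type) [Field E] : LField E := algebraMap (LRing E) (LField E) (varpi E)

theorem vpi_ne_zero (E : Type) [Field E] : vpi E ≠ 0 := by
  intro h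
  have h1 : varpi E = 0 := IsFractionRing.injective (LRing E) (LField E) (by
    rw [map_zero]; exact h)
  exact MvPolynomial.X_ne_zero (R := ℤ) (0 : E) h1

/-- every nonzero polynomial has a nonzero value at a point whose coordinates are multiples of `p`
by natural numbers -/
theorem exists_nat_mul_eval {L : Type} [Fintype L] {K : Type} [Field K] [CharZero K] {p : K}
    (hp : p ≠ 0) (W : MvPolynomial L K) (hW : W ≠ 0) :
    ∃ c : L → ℕ, MvPolynomial.eval (fun l => (c l : K) * p) W ≠ 0 := by
  by_contra hcon
  push Not at hcon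
  apply hW
  refine MvPolynomial.funext_set (fun _ : L => Set.range fun n : ℕ => (n : K) * p)
    (fun _ => Set.infinite_range_of_injective fun a b hab => ?_) fun x hx => ?_
  · exact Nat.cast_injective (mul_right_cancel₀ hp hab)
  · choose c hc using fun l => hx l (Set.mem_univ l)
    have h1 := hcon c
    have h2 : x = fun l => (c l : K) * p := funext fun l => (hc l).symm
    rw [h2, h1, map_zero]

end varpi

section parts

variable {L : Type} [Fintype L] (ty : L → Bool)

/-- the coefficients of the polynomial shifted by `0` -/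
theorem coeff_cf_PhiX_zero {A : Type} [CommRing A] (P : MvPolynomial L A) :
    ∀ (b e : ℕ) (μ : L →₀ ℕ), MvPolynomial.coeff μ (cf b e (PhiX ty (fun _ => (0 : A)) P)) =
      if (∑ l, if ty l then μ l else 0) = b ∧ (∑ l, if ty l then 0 else μ l) = e then
        MvPolynomial.coeff μ P else 0 := by
  classical
  induction P using MvPolynomial.induction_on with
  | C a =>
    intro b e μ
    have h1 : PhiX ty (fun _ => (0 : A)) (MvPolynomial.C a) = cst (MvPolynomial.C a) := by
      rw [PhiX, MvPolynomial.aeval_C, algebraMap_ser']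
      rfl
    rw [h1, cf_cst, MvPolynomial.coeff_C]
    by_cases h0 : 0 = μ
    · subst h0
      simp only [Finsupp.coe_zero, Pi.zero_apply, ite_self, sum_const_zero, if_true]
      by_cases hbe : b = 0 ∧ e = 0
      · rw [if_pos hbe, if_pos ⟨hbe.1.symm, hbe.2.symm⟩, MvPolynomial.coeff_C, if_pos rfl]
      · rw [if_neg hbe, if_neg fun h => hbe ⟨h.1.symm, h.2.symm⟩, MvPolynomial.coeff_zero]
    · rw [if_neg h0, ite_self]
      split_ifs
      · rw [MvPolynomial.coeff_C, if_neg h0]
      · rw [MvPolynomial.coeff_zero]
  | add p q hp hq =>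
    intro b e μ
    rw [map_add, cf_add, MvPolynomial.coeff_add, hp, hq, MvPolynomial.coeff_add]
    split_ifs
    · rfl
    · rw [add_zero]
  | mul_X p l hp =>
    intro b e μ
    have h1 : PhiX ty (fun _ => (0 : A)) (p * MvPolynomial.X l) =
        (if ty l then lam (MvPolynomial L A) else mu (MvPolynomial L A)) *
          cst (MvPolynomial.X l) * PhiX ty (fun _ => (0 : A)) p := by
      rw [map_mul]
      have : PhiX ty (fun _ => (0 : A)) (MvPolynomial.X l) =
          (if ty l then lam (MvPolynomial L A) else mu (MvPolynomial L A)) *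
            cst (MvPolynomial.X l) := by
        rw [PhiX, MvPolynomial.aeval_X, MvPolynomial.C_0, cst_zero, zero_add]
      rw [this, mul_comm]
    rw [h1, mul_comm p, MvPolynomial.coeff_X_mul']
    by_cases hl : l ∈ μ.support
    · rw [if_pos hl]
      obtain ⟨ν, rfl⟩ : ∃ ν : L →₀ ℕ, μ = ν + Finsupp.single l 1 := by
        refine ⟨μ - Finsupp.single l 1, ?_⟩
        rw [tsub_add_cancel_of_le]
        rw [Finsupp.single_le_iff]
        have := Finsupp.mem_support_iff.1 hl
        omega
      rw [add_tsub_cancel_right]
      have hU : (∑ x, if ty x then (ν + (Finsupp.single l 1 : L →₀ ℕ)) x else 0) =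
          (∑ x, if ty x then ν x else 0) + if ty l then 1 else 0 := by
        have h2 : (if ty l then 1 else 0) = ∑ x, if x = l then (if ty x then 1 else 0) else 0 := by
          rw [Finset.sum_ite_eq' univ l (fun x => if ty x then 1 else 0), if_pos (mem_univ l)]
        rw [h2, ← sum_add_distrib]
        refine sum_congr rfl fun x _ => ?_
        rw [Finsupp.add_apply, Finsupp.single_apply]
        by_cases hx : l = x
        · subst hx
          split_ifs <;> simp
        · rw [if_neg hx, if_neg (Ne.symm hx), add_zero, add_zero]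
      have hV : (∑ x, if ty x then 0 else (ν + (Finsupp.single l 1 : L →₀ ℕ)) x) =
          (∑ x, if ty x then 0 else ν x) + if ty l then 0 else 1 := by
        have h2 : (if ty l then 0 else 1) = ∑ x, if x = l then (if ty x then 0 else 1) else 0 := by
          rw [Finset.sum_ite_eq' univ l (fun x => if ty x then 0 else 1), if_pos (mem_univ l)]
        rw [h2, ← sum_add_distrib]
        refine sum_congr rfl fun x _ => ?_
        rw [Finsupp.add_apply, Finsupp.single_apply]
        by_cases hx : l = x
        · subst hx
          split_ifs <;> simp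
        · rw [if_neg hx, if_neg (Ne.symm hx), add_zero, add_zero]
      rw [hU, hV]
      rcases hty : ty l with _ | _
      · simp only [Bool.false_eq_true, if_false, add_zero]
        rcases e with _ | e
        · rw [cf_zero_mu_mul, MvPolynomial.coeff_zero, if_neg (by omega)]
        · rw [cf_succ_mu_mul, MvPolynomial.coeff_X_mul', if_pos hl, add_tsub_cancel_right, hp]
          refine if_congr ?_ rfl rfl
          omega
      · simp only [if_true, add_zero]
        rcases b with _ | b
        · rw [cf_zero_lam_mul, MvPolynomial.coeff_zero, if_neg (by omega)]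
        · rw [cf_succ_lam_mul, MvPolynomial.coeff_X_mul', if_pos hl, add_tsub_cancel_right, hp]
          refine if_congr ?_ rfl rfl
          omega
    · rw [if_neg hl, ite_self]
      rcases hty : ty l with _ | _
      · simp only [Bool.false_eq_true, if_false]
        rcases e with _ | e
        · rw [cf_zero_mu_mul, MvPolynomial.coeff_zero]
        · rw [cf_succ_mu_mul, MvPolynomial.coeff_X_mul', if_neg hl]
      · simp only [if_true]
        rcases b with _ | b
        · rw [cf_zero_lam_mul, MvPolynomial.coeff_zero]
        · rw [cf_succ_lam_mul, MvPolynomial.coeff_X_mul', if_neg hl]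

end parts

section gaps

variable {g : ℕ} {L W : Type} [Fintype L] [DecidableEq L] [Fintype W] [DecidableEq W]
  (ty : L → Bool) (Sw : W → Finset L)

theorem sum_gap_U {LU LV r E : ℕ} (hr : r ≤ LU) (α : Fin g → Box ty LU LV)
    (γ : Fin g → Box ty (LU - r) (LV + E))
    (hA : Adm (cty ty g) (glu fun j => (α j).1) (glu fun j => (γ j).1)) :
    (∑ x, if cty ty g x then gap (cty ty g) (glu fun j => (α j).1) (glu fun j => (γ j).1) x
      else 0) = g * r := by
  have h1 : ∀ j : Fin g, (∑ l, if ty l then (α j).1 l - (γ j).1 l else 0) = r := by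
    intro j
    have h2 : (∑ l, if ty l then (α j).1 l - (γ j).1 l else 0) +
        (∑ l, if ty l then (γ j).1 l else 0) = ∑ l, if ty l then (α j).1 l else 0 := by
      rw [← sum_add_distrib]
      refine sum_congr rfl fun l _ => ?_
      have h3 := hA (j, l)
      unfold cty glu at h3
      split_ifs at h3 ⊢ with h4
      · simp only [h4, if_true] at h3
        exact Nat.sub_add_cancel h3
      · rfl
    rw [(α j).2.1, (γ j).2.1] at h2
    omega
  rw [Fintype.sum_prod_type]
  have h5 : ∀ j : Fin g, (∑ l, if cty ty g (j, l) then gap (cty ty g) (glu fun j => (α j).1)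
      (glu fun j => (γ j).1) (j, l) else 0) = r := by
    intro j
    refine Eq.trans (sum_congr rfl fun l _ => ?_) (h1 j)
    unfold cty gap glu
    rcases h6 : ty l with _ | _
    · simp [h6]
    · simp [h6]
  rw [sum_congr rfl fun j _ => h5 j, sum_const, card_univ, Fintype.card_fin, smul_eq_mul]

theorem sum_gap_V {LU LV r E : ℕ} (α : Fin g → Box ty LU LV)
    (γ : Fin g → Box ty (LU - r) (LV + E))
    (hA : Adm (cty ty g) (glu fun j => (α j).1) (glu fun j => (γ j).1)) :
    (∑ x, if cty ty g x then 0 else gap (cty ty g) (glu fun j => (α j).1)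
      (glu fun j => (γ j).1) x) = g * E := by
  have h1 : ∀ j : Fin g, (∑ l, if ty l then 0 else (γ j).1 l - (α j).1 l) = E := by
    intro j
    have h2 : (∑ l, if ty l then 0 else (γ j).1 l - (α j).1 l) +
        (∑ l, if ty l then 0 else (α j).1 l) = ∑ l, if ty l then 0 else (γ j).1 l := by
      rw [← sum_add_distrib]
      refine sum_congr rfl fun l _ => ?_
      have h3 := hA (j, l)
      unfold cty glu at h3
      split_ifs at h3 ⊢ with h4
      · rfl
      · simp only [h4, Bool.false_eq_true, if_false] at h3
        exact Nat.sub_add_cancel h3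
    rw [(α j).2.2, (γ j).2.2] at h2
    omega
  rw [Fintype.sum_prod_type]
  have h5 : ∀ j : Fin g, (∑ l, if cty ty g (j, l) then 0 else gap (cty ty g)
      (glu fun j => (α j).1) (glu fun j => (γ j).1) (j, l)) = E := by
    intro j
    refine Eq.trans (sum_congr rfl fun l _ => ?_) (h1 j)
    unfold cty gap glu
    rcases h6 : ty l with _ | _
    · simp [h6]
    · simp [h6]
  rw [sum_congr rfl fun j _ => h5 j, sum_const, card_univ, Fintype.card_fin, smul_eq_mul]

theorem filter_mem_card {α : Type} [Fintype α] [DecidableEq α] (s : Finset α) (p : α → Prop)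
    [DecidablePred p] : (s.filter p).card = ∑ x, if x ∈ s ∧ p x then 1 else 0 := by
  rw [← card_filter]
  congr 1
  ext x
  simp

/-- a monomial which contains a word and has its degrees is the word -/
theorem eq_cmon {r E : ℕ}
    (hcU : ∀ s, ((Sw s).filter fun l => ty l = true).card = r)
    (hcV : ∀ s, ((Sw s).filter fun l => ty l = false).card = E) (s : Fin g → W)
    (μ : Fin g × L →₀ ℕ) (hle : cmon Sw s ≤ μ)
    (hU : (∑ x, if cty ty g x then μ x else 0) = g * r)
    (hV : (∑ x, if cty ty g x then 0 else μ x) = g * E) : μ = cmon Sw s := by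
  have h1 := card_lets ty Sw true hcU s
  have h2 := card_lets ty Sw false hcV s
  have h3 : (∑ x, if cty ty g x then cmon Sw s x else 0) = g * r := by
    rw [← h1, filter_mem_card]
    refine sum_congr rfl fun x _ => ?_
    rw [cmon_apply]
    rcases cty ty g x with _ | _ <;> by_cases hx : x ∈ lets Sw s <;> simp [hx]
  have h4 : (∑ x, if cty ty g x then 0 else cmon Sw s x) = g * E := by
    rw [← h2, filter_mem_card]
    refine sum_congr rfl fun x _ => ?_
    rw [cmon_apply]
    rcases cty ty g x with _ | _ <;> by_cases hx : x ∈ lets Sw s <;> simp [hx]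
  have h5 : (∑ x, μ x) = ∑ x, cmon Sw s x := by
    have e1 : (∑ x, μ x) = (∑ x, if cty ty g x then μ x else 0) +
        (∑ x, if cty ty g x then 0 else μ x) := by
      rw [← sum_add_distrib]
      refine sum_congr rfl fun x _ => ?_
      split_ifs <;> simp
    have e2 : (∑ x, cmon Sw s x) = (∑ x, if cty ty g x then cmon Sw s x else 0) +
        (∑ x, if cty ty g x then 0 else cmon Sw s x) := by
      rw [← sum_add_distrib]
      refine sum_congr rfl fun x _ => ?_
      split_ifs <;> simp
    rw [e1, e2, hU, hV, h3, h4]
  have h6 := (Finset.sum_eq_sum_iff_of_le (s := univ) fun x _ => hle x).1 h5.symm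
  ext x
  exact (h6 x (mem_univ x)).symm

end gaps

/-- the lift of a test polynomial -/
theorem exists_lift {K : Type} [Field K] {T m w0 w S k : ℕ} {g : ℕ} {L W : Type} [Fintype L]
    [DecidableEq L] [Fintype W] [DecidableEq W]
    (f : Fin T → Fin m → MvPolynomial (Fin g × L) K) (hf : ∀ i j, f i j ∈ Cls w0 w S k)
    (ty : L → Bool) (Sw : W → Finset L) {r E LU LV : ℕ} (hr : r ≤ LU)
    (hcU : ∀ s, ((Sw s).filter fun l => ty l = true).card = r)
    (hcV : ∀ s, ((Sw s).filter fun l => ty l = false).card = E)
    (hsup : ∀ μ, MvPolynomial.coeff μ (∑ i, ∏ j, f i j) ≠ 0 → ∃ s, cmon Sw s ≤ μ)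
    {I : Type} [Fintype I] [DecidableEq I] (R : I → Fin g → Box ty LU LV)
    (Q : I → Fin g → Box ty (LU - r) (LV + E)) (wd : I → Fin g → W)
    (h1 : ∀ i i' (s : Fin g → W), Adm (cty ty g) (glu fun j => (R i j).1)
      (glu fun j => (Q i' j).1) → gap (cty ty g) (glu fun j => (R i j).1)
        (glu fun j => (Q i' j).1) = cmon Sw s → i = i')
    (h2 : ∀ i, Adm (cty ty g) (glu fun j => (R i j).1) (glu fun j => (Q i j).1) ∧
        gap (cty ty g) (glu fun j => (R i j).1) (glu fun j => (Q i j).1) = cmon Sw (wd i))
    (h3 : ∀ i, MvPolynomial.coeff (cmon Sw (wd i)) (∑ i, ∏ j, f i j) ≠ 0) :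
    ∃ f' : Fin T → Fin m → MvPolynomial (Fin g × L) (LField K), (∀ i j, f' i j ∈ Cls w0 w S k) ∧
      ∀ c : Fin g × L → ℕ, (Matrix.of fun i i' : I =>
        cM ty (cf (g * r) (g * E) (PhiX (cty ty g) (fun l => (c l : LField K) * vpi K)
          (∑ i, ∏ j, f' i j))) LU LV (LU - r) (LV + E) (R i) (Q i')).det ≠ 0 := by
  classical
  -- the matrix over every ring
  let Mt : ∀ (A : Type) [CommRing A], (Fin g × L → A) → MvPolynomial (Fin g × L) A →
      Matrix I I A := fun A _ c P => Matrix.of fun i i' =>
    ent (cty ty g) (cf (g * r) (g * E) (PhiX (cty ty g) c P))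
      (glu fun j => (R i j).1) (glu fun j => (Q i' j).1)
  have hMt : ∀ (A B : Type) [CommRing A] [CommRing B] (ψ : A →+* B) (c : Fin g × L → A)
      (P : MvPolynomial (Fin g × L) A),
      Mt B (fun l => ψ (c l)) (MvPolynomial.map ψ P) = (Mt A c P).map ψ := by
    intro A B _ _ ψ c P
    ext i i'
    show ent (cty ty g) (cf (g * r) (g * E) (PhiX (cty ty g) (fun l => ψ (c l))
      (MvPolynomial.map ψ P))) (glu fun j => (R i j).1) (glu fun j => (Q i' j).1) =
      ψ (ent (cty ty g) (cf (g * r) (g * E) (PhiX (cty ty g) c P))
        (glu fun j => (R i j).1) (glu fun j => (Q i' j).1))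
    rw [← ent_map, ← cf_serMap, serMap_PhiX]
  -- over `K`
  have hK : (Mt K (fun _ => 0) (∑ i, ∏ j, f i j)).det ≠ 0 := by
    have hd : Mt K (fun _ => 0) (∑ i, ∏ j, f i j) =
        Matrix.diagonal fun i => MvPolynomial.coeff (cmon Sw (wd i)) (∑ i, ∏ j, f i j) := by
      ext i i'
      rw [Matrix.diagonal_apply]
      show ent (cty ty g) (cf (g * r) (g * E) (PhiX (cty ty g) (fun _ => 0) (∑ i, ∏ j, f i j)))
        (glu fun j => (R i j).1) (glu fun j => (Q i' j).1) = _
      unfold ent
      by_cases hA : Adm (cty ty g) (glu fun j => (R i j).1) (glu fun j => (Q i' j).1)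
      · have hU := sum_gap_U ty hr (R i) (Q i') hA
        have hV := sum_gap_V ty (R i) (Q i') hA
        rw [if_pos hA, coeff_cf_PhiX_zero, if_pos ⟨hU, hV⟩]
        split_ifs with hii
        · subst hii
          rw [(h2 i).2]
        · by_contra hne
          obtain ⟨s, hs⟩ := hsup _ hne
          exact hii (h1 i i' s hA (eq_cmon ty Sw hcU hcV s _ hs hU hV))
      · rw [if_neg hA, if_neg]
        rintro rfl
        exact hA (h2 i).1
    rw [hd, Matrix.det_diagonal]
    exact Finset.prod_ne_zero_iff.2 fun i _ => h3 i
  -- the lift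
  choose G hG hGf using fun i j => cls_lift (proj K) (proj_surjective K) k (hf i j)
  refine ⟨fun i j => MvPolynomial.map (algebraMap (LRing K) (LField K)) (G i j),
    fun i j => cls_map _ k (hG i j), fun c => ?_⟩
  have h5 : (Mt (LRing K) (fun l => (c l : LRing K) * varpi K) (∑ i, ∏ j, G i j)).det ≠ 0 := by
    intro h0
    apply hK
    have h6 : (fun _ : Fin g × L => (0 : K)) = fun l => proj K ((c l : LRing K) * varpi K) := by
      funext l
      rw [map_mul, proj_varpi, mul_zero]
    have h7 : (∑ i, ∏ j, f i j) = MvPolynomial.map (proj K) (∑ i, ∏ j, G i j) := by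
      simp only [map_sum, map_prod, hGf]
    rw [h6, h7, hMt, ← RingHom.mapMatrix_apply, ← RingHom.map_det, h0, map_zero]
  have h8 : (∑ i, ∏ j, MvPolynomial.map (algebraMap (LRing K) (LField K)) (G i j)) =
      MvPolynomial.map (algebraMap (LRing K) (LField K)) (∑ i, ∏ j, G i j) := by
    simp only [map_sum, map_prod]
  have h9 : (fun l : Fin g × L => (c l : LField K) * vpi K) =
      fun l => algebraMap (LRing K) (LField K) ((c l : LRing K) * varpi K) := by
    funext l
    rw [map_mul, map_natCast]
    rfl
  show (Mt (LField K) _ _).det ≠ 0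
  rw [h8, h9, hMt, ← RingHom.mapMatrix_apply, ← RingHom.map_det]
  intro h0
  exact h5 (IsFractionRing.injective (LRing K) (LField K) (by rw [h0, map_zero]))

end Pool.XDS
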