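import Pool.Agent.Helper59.SAT.Inst

/-!
# Clauses for a locally defined family of assignments

`as : W → Fin n → Bool` is a family of assignments which vanish on the set `P0` of dummies. The
letter `l` is the clause which is violated iff the variable `x l` is true and the dummies are false.
The free clauses are the other clauses which are violated by a member of the family. A satisfiable
formula which contains only free clauses and letters in the complement is satisfied by an assignment
which is locally in the family.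
-/

set_option autoImplicit false

namespace Pool.XDS

open Finset Pool.SatDet

variable {n d : ℕ}

/-- when the clause on `s` which is violated by `b` is violated -/
theorem viol_vcl {k : ℕ} (a b : Fin n → Bool) (s : Finset (Fin n)) (hs : s.card = k) :
    ¬ Sats a (vcl b s hs) ↔ ∀ i ∈ s, a i = b i := by
  constructor
  · intro h i hi
    by_contra hne
    apply h
    refine ⟨(i, !b i), (mem_vcl b s hs _).2 ⟨hi, rfl⟩, ?_⟩
    simp only
    cases h1 : a i <;> cases h2 : b i <;> simp_all
  · rintro h ⟨p, hp, h1⟩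
    rw [mem_vcl] at hp
    rw [h _ hp.1, hp.2] at h1
    cases h2 : b p.1 <;> simp [h2] at h1

section family

variable {W L : Type} (as : W → Fin n → Bool) (x : L → Fin n)
  (P0 : Finset (Fin n)) (hP0 : P0.card = d) (hx : ∀ l, x l ∉ P0)

/-- the letter -/
def lcl (l : L) : Clause n (d + 1) :=
  vcl (fun i => decide (i = x l)) (insert (x l) P0) (by rw [card_insert_of_notMem (hx l), hP0])

theorem viol_lcl (l : L) (a : Fin n → Bool) (ha : ∀ i ∈ P0, a i = false) :
    ¬ Sats a (lcl x P0 hP0 hx l) ↔ a (x l) = true := by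
  rw [lcl, viol_vcl]
  constructor
  · intro h
    rw [h _ (mem_insert_self _ _)]
    simp
  · intro h i hi
    rcases mem_insert.1 hi with rfl | hi
    · rw [h]
      simp
    · rw [ha i hi]
      symm
      rw [decide_eq_false_iff_not]
      rintro rfl
      exact hx l hi

theorem lcl_inj (hinj : Function.Injective x) : Function.Injective (lcl x P0 hP0 hx) := by
  intro l l' h
  have h1 := congrArg supp h
  rw [lcl, lcl, supp_vcl, supp_vcl] at h1
  have h2 : x l ∈ insert (x l') P0 := by
    rw [← h1]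
    exact mem_insert_self _ _
  rcases mem_insert.1 h2 with h3 | h3
  · exact hinj h3
  · exact absurd h3 (hx l)

open Classical in
/-- the free clauses -/
noncomputable def Zf : Finset (Clause n (d + 1)) :=
  univ.filter fun C => (∃ t, ¬ Sats (as t) C) ∧ ∀ l, C ≠ lcl x P0 hP0 hx l

theorem mem_Zf (C : Clause n (d + 1)) : C ∈ Zf as x P0 hP0 hx ↔
    (∃ t, ¬ Sats (as t) C) ∧ ∀ l, C ≠ lcl x P0 hP0 hx l := by
  classical
  rw [Zf, mem_filter]
  simp only [mem_univ, true_and]

theorem lcl_notMem (l : L) : lcl x P0 hP0 hx l ∉ Zf as x P0 hP0 hx := fun h =>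
  ((mem_Zf _ _ _ _ _ _).1 h).2 l rfl

/-- a satisfying assignment is locally in the family -/
theorem loc (has : ∀ t, ∀ i ∈ P0, as t i = false) (hk : d + 1 ≤ n) {U : Finset (Clause n (d + 1))}
    (hU : ∀ C ∈ U, C ∈ Zf as x P0 hP0 hx ∨
      ∃ l, (∃ t, as t (x l) = true) ∧ C = lcl x P0 hP0 hx l)
    {a : Fin n → Bool} (ha : ∀ C, ¬ Sats a C → C ∈ U) (T : Finset (Fin n)) (hT : T.card ≤ d + 1) :
    ∃ t, ∀ i ∈ T, a i = as t i := by
  obtain ⟨T', hTT', hT'⟩ := exists_superset_card_eq hT (by rw [Fintype.card_fin]; exact hk)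
  have h1 : vcl a T' hT' ∈ U := ha _ (not_sats_vcl a T' hT')
  have h2 : ∃ t, ¬ Sats (as t) (vcl a T' hT') := by
    rcases hU _ h1 with h | ⟨l, ⟨t, ht⟩, h⟩
    · exact ((mem_Zf _ _ _ _ _ _).1 h).1
    · refine ⟨t, ?_⟩
      rw [h]
      exact (viol_lcl x P0 hP0 hx l (as t) (has t)).2 ht
  obtain ⟨t, ht⟩ := h2
  refine ⟨t, fun i hi => ?_⟩
  exact ((viol_vcl _ _ _ _).1 ht i (hTT' hi)).symm

/-- the family is defined by local conditions -/
def Loc3 : Prop := ∀ a : Fin n → Bool,
  (∀ T : Finset (Fin n), T.card ≤ 3 → ∃ t, ∀ i ∈ T, a i = as t i) → ∃ t, a = as t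

/-- **main property**: a satisfiable formula contains in its complement all letters of a word -/
theorem main_loc (has : ∀ t, ∀ i ∈ P0, as t i = false) (hk : d + 1 ≤ n) (hd : 2 ≤ d)
    (h3 : Loc3 as) {U : Finset (Clause n (d + 1))}
    (hU : ∀ C ∈ U, C ∈ Zf as x P0 hP0 hx ∨
      ∃ l, (∃ t, as t (x l) = true) ∧ C = lcl x P0 hP0 hx l)
    {a : Fin n → Bool} (ha : ∀ C, ¬ Sats a C → C ∈ U) :
    ∃ t, a = as t ∧ ∀ l, as t (x l) = true → lcl x P0 hP0 hx l ∈ U := by
  obtain ⟨t, ht⟩ := h3 a fun T hT => loc as x P0 hP0 hx has hk hU ha T (hT.trans (by omega))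
  refine ⟨t, ht, fun l hl => ?_⟩
  apply ha
  rw [ht]
  exact (viol_lcl x P0 hP0 hx l (as t) (has t)).2 hl

end family

end Pool.XDS
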